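import Mathlib

set_option autoImplicit false

namespace Pool.Agent.TH95.PR

variable {K : Type*} [Field K] {V : Type*} [AddCommGroup V] [Module K V]

theorem cube_apply {A : Module.End K V} (h : (A - 1) ^ 3 = 0) (y : V) :
    (A - 1) ((A - 1) ((A - 1) y)) = 0 := by
  have := LinearMap.congr_fun h y
  rw [pow_succ, pow_succ, pow_one] at this
  exact this

/-- basic relation -/
theorem relF (Z W : Module.End K V) (v : V) (hv : W v = v) (h : (Z * W - 1) ^ 3 = 0)
    (hZ : (Z - 1) ^ 3 = 0) (hi : ∀ y, Z y = 0 → y = 0) :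
    W (Z (W (Z v - v))) - (2:K) • W (Z v - v) - Z (Z v - v) + (2:K) • (Z v - v) = 0 := by
  have h0 := cube_apply h v
  have h0' := cube_apply hZ v
  have h1 : (Z * W - 1) v = Z v - v := by
    rw [LinearMap.sub_apply, Module.End.mul_apply, hv, Module.End.one_apply]
  have h1' : (Z - 1) v = Z v - v := by
    rw [LinearMap.sub_apply, Module.End.one_apply]
  rw [h1] at h0
  rw [h1'] at h0'
  generalize Z v - v = u at h0 h0' ⊢
  apply hi
  simp only [LinearMap.sub_apply, Module.End.mul_apply, Module.End.one_apply, map_sub, map_add,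
    map_smul] at h0 h0' ⊢
  linear_combination (norm := module) h0 - h0'

/-- `X² c u = ...`: the first relation -/
theorem relR1 (h6 : (6:K) ≠ 0) (X c : Module.End K V) (p : V)
    (hc : ∀ y, c (c (c y)) = 0) (hp : c (c p) = 0)
    (q1 : V) (e1 : q1 = p)
    (P1 : X (X p + c (X p)) - (2:K) • X p - (p + c p) + (2:K) • p = 0)
    (qm : V) (em : qm = -p + c p)
    (Pm : X (X qm - c (X qm) + c (c (X qm))) - (2:K) • X qm
      - (qm - c qm + c (c qm)) + (2:K) • qm = 0)
    (q2 : V) (e2 : q2 = (2:K) • p + c p)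
    (P2 : X (X q2 + (2:K) • c (X q2) + c (c (X q2))) - (2:K) • X q2
      - (q2 + (2:K) • c q2 + c (c q2)) + (2:K) • q2 = 0)
    (qn : V) (en : qn = -(2:K) • p + (3:K) • c p)
    (Pn : X (X qn - (2:K) • c (X qn) + (3:K) • c (c (X qn))) - (2:K) • X qn
      - (qn - (2:K) • c qn + (3:K) • c (c qn)) + (2:K) • qn = 0) :
    X (X ((2:K) • p - c p)) - (2:K) • X ((2:K) • p - c p) + ((2:K) • p - c p) = 0 := by
  have key : (6:K) • (X (X ((2:K) • p - c p)) - (2:K) • X ((2:K) • p - c p)
      + ((2:K) • p - c p)) = 0 := by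
    subst em e2 en
    simp only [map_add, map_sub, map_smul, map_neg, hp, map_zero, neg_smul, smul_zero] at P1 Pm P2 Pn ⊢
    linear_combination (norm := module) (8:K) • P1 - (8:K) • Pm - P2 + Pn
  exact (smul_eq_zero.1 key).resolve_left h6

/-- the second relation -/
theorem relS1 (h12 : (12:K) ≠ 0) (h24 : (24:K) ≠ 0) (a Z : Module.End K V) (u : V)
    (ha : ∀ y, a (a (a y)) = 0)
    (g1 : (Z (u + a u) + a (Z (u + a u))) - (2:K) • (u + a u) - Z u + (2:K) • u = 0)
    (um : V) (em : um = u - a u + a (a u))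
    (gm : (Z um - a (Z um) + a (a (Z um))) - (2:K) • um - Z u + (2:K) • u = 0)
    (u2 : V) (e2 : u2 = u + (2:K) • a u + a (a u))
    (g2 : (Z u2 + (2:K) • a (Z u2) + a (a (Z u2))) - (2:K) • u2 - Z u + (2:K) • u = 0)
    (un : V) (en : un = u - (2:K) • a u + (3:K) • a (a u))
    (gn : (Z un - (2:K) • a (Z un) + (3:K) • a (a (Z un))) - (2:K) • un - Z u + (2:K) • u = 0)
    (R1 : a (a (Z u)) = (3:K) • a (a u)) :
    (4:K) • Z (a (a u)) = (4:K) • a (a u) := by
  have G1 : (2:K) • a (Z u) - a (a (Z u)) + (2:K) • Z (a u) - Z (a (a u)) - (4:K) • a u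
      + (2:K) • a (a u) = 0 := by
    have key : (12:K) • ((2:K) • a (Z u) - a (a (Z u)) + (2:K) • Z (a u) - Z (a (a u))
      - (4:K) • a u + (2:K) • a (a u)) = 0 := by
      subst em e2 en
      simp only [map_add, map_sub, map_smul, map_neg, ha, map_zero, smul_zero] at g1 gm g2 gn ⊢
      linear_combination (norm := module) (16:K) • g1 - (16:K) • gm - (2:K) • g2 + (2:K) • gn
    exact (smul_eq_zero.1 key).resolve_left h12
  have G2 : (24:K) • ((2:K) • a (a (Z u)) + (2:K) • Z (a (a u)) + (4:K) • a (Z (a u))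
      - (2:K) • a (Z (a (a u))) - (2:K) • a (a (Z (a u))) + a (a (Z (a (a u))))
      - (4:K) • a (a u)) = 0 := by
    subst em e2 en
    simp only [map_add, map_sub, map_smul, map_neg, ha, map_zero, smul_zero] at g1 gm g2 gn ⊢
    linear_combination (norm := module) (64:K) • g1 + (64:K) • gm - (4:K) • g2 - (4:K) • gn
  have G2' := (smul_eq_zero.1 G2).resolve_left h24
  have aG := congrArg a G1
  have aaG := congrArg (fun y => a (a y)) G1
  simp only [map_add, map_sub, map_smul, map_neg, ha, map_zero, smul_zero] at aG aaG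
  linear_combination (norm := module) (2:K) • G2' - (4:K) • aG + (2:K) • aaG + (4:K) • R1

end Pool.Agent.TH95.PR
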