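import Mathlib
import Pool.Agent.TH95.PR.Core

set_option autoImplicit false

namespace Pool.Agent.TH95.PR

variable {K : Type*} [Field K] {V : Type*} [AddCommGroup V] [Module K V]
variable {G : Type*} [Group G]

structure Hyp (ρ : G →* Module.End K V) (U : Subgroup G) (z : G) (Pr : Set G) {n : ℕ}
    (x : Fin n → G) : Prop where
  gen : ∀ v : V, (∀ i, ρ (x i) v = v) → ∀ w ∈ U, ρ w v = v
  prU : ∀ g ∈ Pr, g ∈ U
  xPr : ∀ i, x i ∈ Pr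
  xxPr : ∀ i j, i ≠ j → x i * x j ∈ Pr
  prC : ∀ g ∈ Pr, (ρ g - 1) ^ 3 = 0
  zC : ∀ w0 ∈ U, ∀ w ∈ U, (ρ (w0 * z * w) - 1) ^ 3 = 0
  zkC : ∀ w0 ∈ U, ∀ w ∈ U, ∀ g ∈ Pr, ∀ k : ℤ, (ρ ((w0 * z * w) ^ k * g) - 1) ^ 3 = 0

section forms
variable (ρ : G →* Module.End K V) {g : G}

theorem rho_inv (y : V) : ρ g⁻¹ (ρ g y) = y := by
  rw [← Module.End.mul_apply, ← map_mul, inv_mul_cancel, map_one, Module.End.one_apply]

theorem rho_inv' (y : V) : ρ g (ρ g⁻¹ y) = y := by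
  rw [← Module.End.mul_apply, ← map_mul, mul_inv_cancel, map_one, Module.End.one_apply]

theorem rho_inj (y : V) (h : ρ g y = 0) : y = 0 := by
  rw [← rho_inv ρ (g := g) y, h, map_zero]

theorem f1 (y : V) : ρ g y = y + (ρ g - 1) y := by
  rw [LinearMap.sub_apply, Module.End.one_apply]; abel

theorem fm (h : (ρ g - 1) ^ 3 = 0) (y : V) :
    ρ g⁻¹ y = y - (ρ g - 1) y + (ρ g - 1) ((ρ g - 1) y) := by
  have h3 := cube_apply h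
  set c := ρ g - 1 with hc
  have e : ρ g (y - c y + c (c y)) = y := by
    rw [f1 ρ (g := g), ← hc]
    simp only [map_sub, map_add, h3]
    abel
  calc ρ g⁻¹ y = ρ g⁻¹ (ρ g (y - c y + c (c y))) := by rw [e]
    _ = _ := rho_inv ρ _

theorem f2 (y : V) : ρ (g ^ 2) y = y + (2:K) • (ρ g - 1) y + (ρ g - 1) ((ρ g - 1) y) := by
  rw [pow_two, map_mul, Module.End.mul_apply, f1 ρ (g := g) y, map_add, f1 ρ (g := g) y,
    f1 ρ (g := g) ((ρ g - 1) y)]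
  module

theorem fn (h : (ρ g - 1) ^ 3 = 0) (y : V) :
    ρ (g⁻¹ ^ 2) y = y - (2:K) • (ρ g - 1) y + (3:K) • (ρ g - 1) ((ρ g - 1) y) := by
  have h3 := cube_apply h
  rw [pow_two, map_mul, Module.End.mul_apply, fm ρ h y, fm ρ h]
  simp only [map_sub, map_add, h3, map_zero]
  module

theorem inv_cube (h : (ρ g - 1) ^ 3 = 0) : (ρ g⁻¹ - 1) ^ 3 = 0 := by
  apply LinearMap.ext
  intro y
  have h3 := cube_apply h
  have e : ∀ y, (ρ g⁻¹ - 1) y = -(ρ g - 1) y + (ρ g - 1) ((ρ g - 1) y) := by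
    intro y
    rw [LinearMap.sub_apply, Module.End.one_apply, fm ρ h]
    abel
  rw [pow_succ, pow_succ, pow_one]
  show (ρ g⁻¹ - 1) ((ρ g⁻¹ - 1) ((ρ g⁻¹ - 1) y)) = 0
  rw [e, e, e]
  simp only [map_neg, map_add, h3, map_zero]
  simp

theorem sq_cube (h : (ρ g - 1) ^ 3 = 0) : (ρ (g ^ 2) - 1) ^ 3 = 0 := by
  apply LinearMap.ext
  intro y
  have h3 := cube_apply h
  have e : ∀ y, (ρ (g ^ 2) - 1) y = (2:K) • (ρ g - 1) y + (ρ g - 1) ((ρ g - 1) y) := by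
    intro y
    rw [LinearMap.sub_apply, Module.End.one_apply, f2 ρ]
    abel
  rw [pow_succ, pow_succ, pow_one]
  show (ρ (g ^ 2) - 1) ((ρ (g ^ 2) - 1) ((ρ (g ^ 2) - 1) y)) = 0
  rw [e, e, e]
  simp only [map_smul, map_add, h3, map_zero]
  simp

end forms

variable {ρ : G →* Module.End K V} {U : Subgroup G} {z : G} {Pr : Set G} {n : ℕ} {x : Fin n → G}

/-- relation F for group elements -/
theorem relG {ζ g : G} {v : V} (hv : ρ g v = v) (h : (ρ (ζ * g) - 1) ^ 3 = 0)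
    (hZ : (ρ ζ - 1) ^ 3 = 0) :
    ρ g (ρ ζ (ρ g (ρ ζ v - v))) - (2:K) • ρ g (ρ ζ v - v) - ρ ζ (ρ ζ v - v)
      + (2:K) • (ρ ζ v - v) = 0 :=
  relF (ρ ζ) (ρ g) v hv (by rw [← map_mul]; exact h) hZ (fun y hy => rho_inj ρ y hy)

/-- Lemma A -/
theorem lemA (h2 : (2:K) ≠ 0) (h3 : (3:K) ≠ 0) {ζ g : G} {v : V}
    (hg : (ρ g - 1) ^ 3 = 0) (hζ : (ρ ζ - 1) ^ 3 = 0) (hv : ρ g v = v)
    (H1 : (ρ (ζ * g) - 1) ^ 3 = 0) (H2 : (ρ (ζ⁻¹ * g) - 1) ^ 3 = 0)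
    (H3 : (ρ (ζ ^ 2 * g) - 1) ^ 3 = 0) (H4 : (ρ (ζ⁻¹ ^ 2 * g) - 1) ^ 3 = 0)
    (H5 : (ρ (ζ * g⁻¹) - 1) ^ 3 = 0) (H6 : (ρ (ζ * g ^ 2) - 1) ^ 3 = 0)
    (H7 : (ρ (ζ * g⁻¹ ^ 2) - 1) ^ 3 = 0) :
    (ρ g - 1) ((ρ g - 1) (ρ ζ (ρ ζ v - v))) = (3:K) • (ρ g - 1) ((ρ g - 1) (ρ ζ v - v)) ∧
      ρ ζ ((ρ g - 1) ((ρ g - 1) (ρ ζ v - v))) = (ρ g - 1) ((ρ g - 1) (ρ ζ v - v)) := by
  have c3 := cube_apply hζ
  have a3 := cube_apply hg
  have hv' : ρ g⁻¹ v = v := by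
    have := rho_inv ρ (g := g) v
    rwa [hv] at this
  have hv2 : ρ (g ^ 2) v = v := by
    rw [pow_two, map_mul, Module.End.mul_apply, hv, hv]
  have hvn : ρ (g⁻¹ ^ 2) v = v := by
    rw [pow_two, map_mul, Module.End.mul_apply, hv', hv']
  have hcv : (ρ ζ - 1) v = ρ ζ v - v := by
    rw [LinearMap.sub_apply, Module.End.one_apply]
  have P1 := relG (K := K) hv H1 hζ
  have Pm := relG (K := K) hv H2 (inv_cube ρ hζ)
  have P2 := relG (K := K) hv H3 (sq_cube ρ hζ)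
  have Pn := relG (K := K) hv H4 (sq_cube ρ (inv_cube ρ hζ))
  have g1 := P1
  have gm := relG (K := K) hv' H5 hζ
  have g2 := relG (K := K) hv2 H6 hζ
  have gn := relG (K := K) hvn H7 hζ
  obtain ⟨c, hc⟩ : ∃ c, c = ρ ζ - 1 := ⟨_, rfl⟩
  obtain ⟨a, ha⟩ : ∃ a, a = ρ g - 1 := ⟨_, rfl⟩
  obtain ⟨u, hu⟩ : ∃ u, u = ρ ζ v - v := ⟨_, rfl⟩
  have em : ρ ζ⁻¹ v - v = -u + c u := by
    rw [fm ρ hζ v, hcv, ← hu, ← hc]; abel
  have e2 : ρ (ζ ^ 2) v - v = (2:K) • u + c u := by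
    rw [f2 ρ v, hcv, ← hu, ← hc]; abel
  have en : ρ (ζ⁻¹ ^ 2) v - v = -(2:K) • u + (3:K) • c u := by
    rw [fn ρ hζ v, hcv, ← hu, ← hc]; module
  have hccu : c (c u) = 0 := by
    have := c3 v
    rwa [hcv, ← hu, ← hc] at this
  rw [← hu] at P1 g1 gm g2 gn
  have R := relR1 (K := K) (by
      have : (6:K) = 2 * 3 := by norm_num
      rw [this]; exact mul_ne_zero h2 h3) (ρ g) c u (by rw [hc]; exact c3) hccu u rfl
    (by
      rw [f1 ρ (g := ζ) (ρ g u), f1 ρ (g := ζ) u, ← hc] at P1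
      exact P1)
    (ρ ζ⁻¹ v - v) em
    (by
      rw [fm ρ hζ (ρ g (ρ ζ⁻¹ v - v)), fm ρ hζ (ρ ζ⁻¹ v - v), ← hc] at Pm
      exact Pm)
    (ρ (ζ ^ 2) v - v) e2
    (by
      rw [f2 ρ (ρ g (ρ (ζ ^ 2) v - v)), f2 ρ (ρ (ζ ^ 2) v - v), ← hc] at P2
      exact P2)
    (ρ (ζ⁻¹ ^ 2) v - v) en
    (by
      rw [fn ρ hζ (ρ g (ρ (ζ⁻¹ ^ 2) v - v)), fn ρ hζ (ρ (ζ⁻¹ ^ 2) v - v), ← hc] at Pn
      exact Pn)
  have R' : a (a (ρ ζ u)) = (3:K) • a (a u) := by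
    rw [f1 ρ (g := ζ) u, ← hc]
    have e : ∀ y, ρ g (ρ g y) - (2:K) • ρ g y + y = a (a y) := by
      intro y
      rw [ha]
      simp only [LinearMap.sub_apply, Module.End.one_apply, map_sub]
      module
    rw [e] at R
    simp only [map_sub, map_smul, map_add] at R ⊢
    linear_combination (norm := module) -(1:K) • R
  rw [← hu, ← ha]
  refine ⟨R', ?_⟩
  have h12 : (12:K) ≠ 0 := by
    have : (12:K) = 2 * 2 * 3 := by norm_num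
    rw [this]; exact mul_ne_zero (mul_ne_zero h2 h2) h3
  have h24 : (24:K) ≠ 0 := by
    have : (24:K) = 2 * 12 := by norm_num
    rw [this]; exact mul_ne_zero h2 h12
  have h4 : (4:K) ≠ 0 := by
    have : (4:K) = 2 * 2 := by norm_num
    rw [this]; exact mul_ne_zero h2 h2
  have S := relS1 (K := K) h12 h24 a (ρ ζ) u (by rw [ha]; exact a3)
    (by
      rw [f1 ρ (g := g) u, f1 ρ (g := g) (ρ ζ _), ← ha] at g1
      exact g1)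
    (ρ g⁻¹ u) (by rw [fm ρ hg, ← ha])
    (by
      rw [fm ρ hg (ρ ζ _), ← ha] at gm
      exact gm)
    (ρ (g ^ 2) u) (by rw [f2 ρ, ← ha])
    (by
      rw [f2 ρ (ρ ζ _), ← ha] at g2
      exact g2)
    (ρ (g⁻¹ ^ 2) u) (by rw [fn ρ hg, ← ha])
    (by
      rw [fn ρ hg (ρ ζ _), ← ha] at gn
      exact gn) R'
  rw [← sub_eq_zero, ← smul_sub] at S
  exact sub_eq_zero.1 ((smul_eq_zero.1 S).resolve_left h4)

end Pool.Agent.TH95.PR
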