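import Mathlib
import Pool.Agent.TH95.PR.Step

set_option autoImplicit false

namespace Pool.Agent.TH95.PR

variable {K : Type*} [Field K] {V : Type*} [AddCommGroup V] [Module K V]
variable {G : Type*} [Group G]
variable {ρ : G →* Module.End K V} {U : Subgroup G} {z : G} {Pr : Set G} {n : ℕ} {x : Fin n → G}

/-- fixed by `U` -/
def Fx (ρ : G →* Module.End K V) (U : Subgroup G) (v : V) : Prop := ∀ w ∈ U, ρ w v = v

/-- no common fixed vector -/
def NF (ρ : G →* Module.End K V) (U : Subgroup G) (z : G) : Prop :=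
  ∀ v, Fx ρ U v → ρ z v = v → v = 0

/-- `a_g` squares to zero on the `U`-module generated by `y` -/
def Qv (ρ : G →* Module.End K V) (U : Subgroup G) (Pr : Set G) (y : V) : Prop :=
  ∀ g ∈ Pr, ∀ w ∈ U, (ρ g - 1) ((ρ g - 1) (ρ w y)) = 0

theorem ra (g : G) (y : V) : (ρ g - 1) y = ρ g y - y := by
  rw [LinearMap.sub_apply, Module.End.one_apply]

theorem rm (g h : G) (y : V) : ρ (g * h) y = ρ g (ρ h y) := by
  rw [map_mul, Module.End.mul_apply]

/-- Lemma A for the family -/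
theorem lemA' (h2 : (2:K) ≠ 0) (h3 : (3:K) ≠ 0) (H : Hyp ρ U z Pr x) {g w0 w : G} (hg : g ∈ Pr)
    (hw0 : w0 ∈ U) (hw : w ∈ U) {v : V} (hv : Fx ρ U v) :
    (ρ g - 1) ((ρ g - 1) (ρ (w0 * z * w) (ρ (w0 * z) v - v))) =
      (3:K) • (ρ g - 1) ((ρ g - 1) (ρ (w0 * z) v - v)) ∧
      ρ (w0 * z * w) ((ρ g - 1) ((ρ g - 1) (ρ (w0 * z) v - v))) =
        (ρ g - 1) ((ρ g - 1) (ρ (w0 * z) v - v)) := by
  have hgU := H.prU g hg
  have e : ρ (w0 * z * w) v = ρ (w0 * z) v := by rw [rm, hv w hw]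
  have := lemA (ρ := ρ) h2 h3 (ζ := w0 * z * w) (g := g) (v := v) (H.prC g hg) (H.zC w0 hw0 w hw)
    (hv g hgU)
    (by simpa using H.zkC w0 hw0 w hw g hg 1)
    (by simpa using H.zkC w0 hw0 w hw g hg (-1))
    (by exact_mod_cast H.zkC w0 hw0 w hw g hg 2)
    (by
      have := H.zkC w0 hw0 w hw g hg (-2)
      rw [zpow_neg, ← inv_zpow] at this
      exact_mod_cast this)
    (by rw [mul_assoc]; exact H.zC w0 hw0 _ (U.mul_mem hw (U.inv_mem hgU)))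
    (by rw [mul_assoc]; exact H.zC w0 hw0 _ (U.mul_mem hw (U.pow_mem hgU 2)))
    (by rw [mul_assoc]; exact H.zC w0 hw0 _ (U.mul_mem hw (U.pow_mem (U.inv_mem hgU) 2)))
  rw [e] at this
  exact this

/-- B1 -/
theorem lemB1 (h2 : (2:K) ≠ 0) (h3 : (3:K) ≠ 0) (H : Hyp ρ U z Pr x) (hN : NF ρ U z)
    {g w0 : G} (hg : g ∈ Pr) (hw0 : w0 ∈ U) {v : V} (hv : Fx ρ U v) :
    (ρ g - 1) ((ρ g - 1) (ρ (w0 * z) v)) = 0 := by
  obtain ⟨r, hr⟩ : ∃ r, r = (ρ g - 1) ((ρ g - 1) (ρ (w0 * z) v - v)) := ⟨_, rfl⟩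
  have h : ∀ w ∈ U, ρ (w0 * z * w) r = r := by
    intro w hw
    have := (lemA' h2 h3 H hg hw0 hw hv).2
    rw [← hr] at this
    exact this
  have h1 : ρ (w0 * z) r = r := by
    have := h 1 U.one_mem
    rwa [mul_one] at this
  have hfx : Fx ρ U r := by
    intro w hw
    have h4 := h w hw
    rw [rm] at h4
    have h5 : ρ (w0 * z) (ρ w r - r) = 0 := by rw [map_sub, h4, h1, sub_self]
    exact sub_eq_zero.1 (rho_inj ρ _ h5)
  have hz : ρ z r = r := by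
    have h4 := h1
    rw [rm] at h4
    have h5 := congrArg (ρ w0⁻¹) h4
    rw [rho_inv, hfx _ (U.inv_mem hw0)] at h5
    exact h5
  have h0 := hN r hfx hz
  rw [hr, map_sub, map_sub] at h0
  have hav : (ρ g - 1) v = 0 := by rw [ra, hv g (H.prU g hg), sub_self]
  rw [hav, map_zero, sub_zero] at h0
  exact h0

/-- B2 -/
theorem lemB2 (h2 : (2:K) ≠ 0) (h3 : (3:K) ≠ 0) (H : Hyp ρ U z Pr x) (hN : NF ρ U z)
    {g w0 w' : G} (hg : g ∈ Pr) (hw0 : w0 ∈ U) (hw' : w' ∈ U) {v : V} (hv : Fx ρ U v) :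
    (ρ g - 1) ((ρ g - 1) (ρ (w0 * z * w' * z) v)) = 0 := by
  have hw : w' * w0⁻¹ ∈ U := U.mul_mem hw' (U.inv_mem hw0)
  have h := (lemA' h2 h3 H hg hw0 hw hv).1
  have hav : (ρ g - 1) v = 0 := by rw [ra, hv g (H.prU g hg), sub_self]
  have h4 := lemB1 h2 h3 H hN hg hw0 hv
  rw [map_sub, ← rm] at h
  have e1 : w0 * z * (w' * w0⁻¹) * (w0 * z) = w0 * z * w' * z := by group
  have e2 : ρ (w0 * z * (w' * w0⁻¹)) v = ρ (w0 * z) v := by rw [rm, hv _ hw]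
  rw [e1, e2] at h
  simp only [map_sub] at h
  rw [h4, hav, map_zero, sub_zero, sub_zero, smul_zero] at h
  exact h

/-- `u = z v - v` is a quadratic vector -/
theorem qv_u (h2 : (2:K) ≠ 0) (h3 : (3:K) ≠ 0) (H : Hyp ρ U z Pr x) (hN : NF ρ U z)
    {v : V} (hv : Fx ρ U v) : Qv ρ U Pr (ρ z v - v) := by
  intro g hg w hw
  have hav : (ρ g - 1) v = 0 := by rw [ra, hv g (H.prU g hg), sub_self]
  rw [map_sub, ← rm, hv w hw, map_sub, map_sub, lemB1 h2 h3 H hN hg hw hv, hav, map_zero, sub_zero]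

theorem qv_zu (h2 : (2:K) ≠ 0) (h3 : (3:K) ≠ 0) (H : Hyp ρ U z Pr x) (hN : NF ρ U z)
    {v : V} (hv : Fx ρ U v) {g w : G} (hg : g ∈ Pr) (hw : w ∈ U) :
    (ρ g - 1) ((ρ g - 1) (ρ (z * w) (ρ z v - v))) = 0 := by
  have h := lemB2 h2 h3 H hN hg U.one_mem hw hv
  have h' := lemB1 h2 h3 H hN hg U.one_mem hv
  rw [one_mul] at h h'
  rw [map_sub, ← rm, map_sub, map_sub, h]
  have e : ρ (z * w) v = ρ z v := by rw [rm, hv w hw]
  rw [e, h', sub_zero]

/-- (M) -/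
theorem lemM (h2 : (2:K) ≠ 0) (h3 : (3:K) ≠ 0) (H : Hyp ρ U z Pr x) (hN : NF ρ U z)
    {v : V} (hv : Fx ρ U v) {g w : G} (hg : g ∈ Pr) (hw : w ∈ U) :
    (ρ g - 1) (ρ z (ρ w (ρ z v - v))) + ρ z (ρ w ((ρ g - 1) (ρ z v - v))) =
      (2:K) • (ρ g - 1) (ρ z v - v) := by
  have hgU := H.prU g hg
  have hzw : ρ (z * w) v = ρ z v := by rw [rm, hv w hw]
  have hc : (ρ (z * w) - 1) ^ 3 = 0 := by
    have := H.zC 1 U.one_mem w hw
    rwa [one_mul] at this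
  have F1 := relG (K := K) (ζ := z * w) (g := g) (v := v) (hv g hgU)
    (by
      have := H.zC 1 U.one_mem (w * g) (U.mul_mem hw hgU)
      rwa [one_mul, ← mul_assoc] at this) hc
  have F2 := relG (K := K) (ζ := z * w) (g := g⁻¹) (v := v) (hv _ (U.inv_mem hgU))
    (by
      have := H.zC 1 U.one_mem (w * g⁻¹) (U.mul_mem hw (U.inv_mem hgU))
      rwa [one_mul, ← mul_assoc] at this) hc
  rw [hzw] at F1 F2
  have q1 := qv_u h2 h3 H hN hv g hg 1 U.one_mem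
  rw [map_one, Module.End.one_apply] at q1
  have q2 := qv_zu h2 h3 H hN hv hg hw
  have q3 := qv_zu h2 h3 H hN hv hg (U.mul_mem hw hgU)
  rw [← mul_assoc, rm (z * w) g] at q3
  obtain ⟨u, hu⟩ : ∃ u, u = ρ z v - v := ⟨_, rfl⟩
  rw [← hu] at F1 F2 q1 q2 q3 ⊢
  have hg3 := H.prC g hg
  rw [f1 ρ (g := g) (ρ (z * w) _), f1 ρ (g := g) u] at F1
  rw [fm ρ hg3 (ρ (z * w) _), fm ρ hg3 u] at F2
  rw [f1 ρ (g := g) u] at q3
  rw [← rm, ← rm]
  obtain ⟨a, ha⟩ : ∃ a, a = ρ g - 1 := ⟨_, rfl⟩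
  rw [← ha] at F1 F2 q1 q2 q3 ⊢
  simp only [map_add, map_sub, q1, q2, map_zero, add_zero, zero_add] at F1 F2 q3
  have key : (2:K) • (a (ρ (z * w) u) + ρ (z * w) (a u) - (2:K) • a u) = 0 := by
    simp only [q3, map_zero] at F1 F2
    linear_combination (norm := module) F1 - F2
  exact sub_eq_zero.1 ((smul_eq_zero.1 key).resolve_left h2)

/-- closure of quadratic vectors -/
theorem qv_a {y : V} (hy : Qv ρ U Pr y) {g : G} (hg : g ∈ U) : Qv ρ U Pr ((ρ g - 1) y) := by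
  intro h hh w hw
  rw [ra g y, map_sub, ← rm, map_sub, map_sub, hy h hh _ (U.mul_mem hw hg), hy h hh w hw, sub_self]

theorem qv_rho {y : V} (hy : Qv ρ U Pr y) {g : G} (hg : g ∈ U) : Qv ρ U Pr (ρ g y) := by
  intro h hh w hw
  rw [← rm]
  exact hy h hh _ (U.mul_mem hw hg)

theorem qv_sq {y : V} (hy : Qv ρ U Pr y) {g : G} (hg : g ∈ Pr) :
    (ρ g - 1) ((ρ g - 1) y) = 0 := by
  have := hy g hg 1 U.one_mem
  rwa [map_one, Module.End.one_apply] at this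

theorem anti (hPU : ∀ g ∈ Pr, g ∈ U) {g h : G} (hg : g ∈ Pr) (hh : h ∈ Pr) (hgh : g * h ∈ Pr)
    {y : V} (hy : Qv ρ U Pr y) :
    (ρ g - 1) ((ρ h - 1) y) = -(ρ h - 1) ((ρ g - 1) y) := by
  have hgU := hPU g hg
  have hhU := hPU h hh
  obtain ⟨a, ha⟩ : ∃ a, a = ρ g - 1 := ⟨_, rfl⟩
  obtain ⟨b, hb⟩ : ∃ b, b = ρ h - 1 := ⟨_, rfl⟩
  have eab : ∀ y, (ρ (g * h) - 1) y = a y + b y + a (b y) := by
    intro y
    rw [ra, rm, ha, hb]
    simp only [LinearMap.sub_apply, Module.End.one_apply, map_sub]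
    abel
  have qa : ∀ y, Qv ρ U Pr y → Qv ρ U Pr (a y) := fun y hy => by rw [ha]; exact qv_a hy hgU
  have qb : ∀ y, Qv ρ U Pr y → Qv ρ U Pr (b y) := fun y hy => by rw [hb]; exact qv_a hy hhU
  have aa : ∀ y, Qv ρ U Pr y → a (a y) = 0 := fun y hy => by rw [ha]; exact qv_sq hy hg
  have bb : ∀ y, Qv ρ U Pr y → b (b y) = 0 := fun y hy => by rw [hb]; exact qv_sq hy hh
  have E : ∀ y, Qv ρ U Pr y → a (b y) + b (a y) + b (a (b y)) + a (b (a y)) + a (b (a (b y))) = 0 := by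
    intro y hy
    have h1 := qv_sq hy hgh
    rw [eab, eab] at h1
    simp only [map_add, aa y hy, bb y hy, aa _ (qb y hy), map_zero, add_zero, zero_add] at h1
    have h2 := bb y hy
    linear_combination (norm := module) h1
  have aba : ∀ y, Qv ρ U Pr y → a (b (a y)) = 0 := by
    have h1 : ∀ y, Qv ρ U Pr y → a (b (a (ρ h y))) = 0 := by
      intro y hy
      have h2 := congrArg a (E y hy)
      simp only [map_add, map_zero, aa _ (qb y hy), aa _ (qb _ (qa y hy)),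
        aa _ (qb _ (qa _ (qb y hy))), add_zero, zero_add] at h2
      rw [f1 ρ (g := h) y, ← hb]
      simp only [map_add]
      exact h2
    intro y hy
    have := h1 (ρ h⁻¹ y) (qv_rho hy (U.inv_mem hhU))
    rwa [rho_inv'] at this
  have bab : ∀ y, Qv ρ U Pr y → b (a (b y)) = 0 := by
    intro y hy
    have h1 := E (b y) (qb y hy)
    rw [aba _ (qb y hy)] at h1
    simp only [bb y hy, map_zero, add_zero, zero_add] at h1
    exact h1
  have h1 := E y hy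
  rw [aba y hy, aba _ (qb y hy), bab y hy] at h1
  rw [← ha, ← hb]
  simp only [add_zero] at h1
  exact eq_neg_of_add_eq_zero_left h1

end Pool.Agent.TH95.PR
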