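import Mathlib
import Pool.Agent.TH95.PR.Step2

set_option autoImplicit false

namespace Pool.Agent.TH95.PR

variable {K : Type*} [Field K] {V : Type*} [AddCommGroup V] [Module K V]
variable {G : Type*} [Group G]
variable {ρ : G →* Module.End K V} {U : Subgroup G} {z : G} {Pr : Set G} {n : ℕ} {x : Fin n → G}

/-- iterated differences -/
def Al (ρ : G →* Module.End K V) (x : Fin n → G) : List (Fin n) → V → V
  | [], y => y
  | i :: l, y => (ρ (x i) - 1) (Al ρ x l y)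

theorem Al_append (l m : List (Fin n)) (y : V) : Al ρ x (l ++ m) y = Al ρ x l (Al ρ x m y) := by
  induction l with
  | nil => rfl
  | cons i l ih => exact congrArg (fun y => (ρ (x i) - 1) y) ih

theorem Al_smul (l : List (Fin n)) (c : K) (y : V) : Al ρ x l (c • y) = c • Al ρ x l y := by
  induction l with
  | nil => rfl
  | cons i l ih => show (ρ (x i) - 1) _ = c • (ρ (x i) - 1) _; rw [ih, map_smul]

theorem Al_zero (l : List (Fin n)) : Al ρ x l (0 : V) = 0 := by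
  induction l with
  | nil => rfl
  | cons i l ih => show (ρ (x i) - 1) _ = 0; rw [ih, map_zero]

section
variable (H : Hyp ρ U z Pr x)
include H

theorem qv_A (l : List (Fin n)) {y : V} (hy : Qv ρ U Pr y) : Qv ρ U Pr (Al ρ x l y) := by
  induction l with
  | nil => exact hy
  | cons i l ih => exact qv_a ih (H.prU _ (H.xPr i))

theorem anti_ij (i j : Fin n) {y : V} (hy : Qv ρ U Pr y) :
    (ρ (x i) - 1) ((ρ (x j) - 1) y) = -(ρ (x j) - 1) ((ρ (x i) - 1) y) := by
  by_cases h : i = j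
  · subst h
    rw [qv_sq hy (H.xPr i), neg_zero]
  · exact anti H.prU (H.xPr i) (H.xPr j) (H.xxPr i j h) hy

theorem A_comm (l : List (Fin n)) (k : Fin n) {y : V} (hy : Qv ρ U Pr y) :
    ∃ ε : K, (ε = 1 ∨ ε = -1) ∧ Al ρ x l ((ρ (x k) - 1) y) = ε • (ρ (x k) - 1) (Al ρ x l y) := by
  induction l with
  | nil => exact ⟨1, Or.inl rfl, by rw [one_smul]; rfl⟩
  | cons i l ih =>
    obtain ⟨ε, hε, h⟩ := ih
    refine ⟨-ε, ?_, ?_⟩
    · rcases hε with h | h
      · right; rw [h]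
      · left; rw [h, neg_neg]
    · show (ρ (x i) - 1) (Al ρ x l ((ρ (x k) - 1) y)) = -ε • (ρ (x k) - 1) ((ρ (x i) - 1) (Al ρ x l y))
      rw [h, map_smul, anti_ij H i k (qv_A H l hy), smul_neg, neg_smul]

theorem exists_max {u : V} (hu : Qv ρ U Pr u) (h0 : u ≠ 0) :
    ∃ l, Al ρ x l u ≠ 0 ∧ ∀ k, (ρ (x k) - 1) (Al ρ x l u) = 0 := by
  have key : ∀ m : ℕ, ∃ l, Al ρ x l u ≠ 0 ∧ ∀ k : Fin n, (k : ℕ) < m →
      (ρ (x k) - 1) (Al ρ x l u) = 0 := by
    intro m
    induction m with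
    | zero => exact ⟨[], h0, fun k hk => absurd hk (Nat.not_lt_zero _)⟩
    | succ m ih =>
      obtain ⟨l, h1, h2⟩ := ih
      by_cases hm : m < n
      · by_cases h3 : (ρ (x ⟨m, hm⟩) - 1) (Al ρ x l u) = 0
        · refine ⟨l, h1, fun k hk => ?_⟩
          rcases Nat.lt_succ_iff_lt_or_eq.1 hk with h4 | h4
          · exact h2 k h4
          · have : k = ⟨m, hm⟩ := Fin.ext h4
            rw [this]; exact h3
        · refine ⟨⟨m, hm⟩ :: l, h3, fun k hk => ?_⟩
          show (ρ (x k) - 1) ((ρ (x ⟨m, hm⟩) - 1) (Al ρ x l u)) = 0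
          rcases Nat.lt_succ_iff_lt_or_eq.1 hk with h4 | h4
          · rw [anti_ij H k ⟨m, hm⟩ (qv_A H l hu), h2 k h4, map_zero, neg_zero]
          · have : k = ⟨m, hm⟩ := Fin.ext h4
            rw [this]; exact qv_sq (qv_A H l hu) (H.xPr _)
      · refine ⟨l, h1, fun k hk => h2 k ?_⟩
        have := k.2
        omega
  obtain ⟨l, h1, h2⟩ := key n
  exact ⟨l, h1, fun k => h2 k k.2⟩

theorem fx_of {e : V} (h : ∀ k, (ρ (x k) - 1) e = 0) : Fx ρ U e := by
  apply H.gen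
  intro i
  have := h i
  rw [ra] at this
  exact sub_eq_zero.1 this

theorem lemD (h2 : (2:K) ≠ 0) (h3 : (3:K) ≠ 0) (hN : NF ρ U z) {v : V} (hv : Fx ρ U v)
    (i : Fin n) (l : List (Fin n)) : ∀ w ∈ U,
    (ρ (x i) - 1) (ρ z (ρ w (Al ρ x l (ρ z v - v)))) +
      ρ z (ρ w (Al ρ x l ((ρ (x i) - 1) (ρ z v - v)))) =
      if l = [] then (2:K) • (ρ (x i) - 1) (ρ z v - v) else 0 := by
  induction l with
  | nil =>
    intro w hw
    rw [if_pos rfl]
    exact lemM h2 h3 H hN hv (H.xPr i) hw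
  | cons j l ih =>
    intro w hw
    rw [if_neg (List.cons_ne_nil _ _)]
    have h4 := ih w hw
    have h5 := ih (w * x j) (U.mul_mem hw (H.prU _ (H.xPr j)))
    rw [rm, rm] at h5
    show (ρ (x i) - 1) (ρ z (ρ w ((ρ (x j) - 1) (Al ρ x l (ρ z v - v))))) +
      ρ z (ρ w ((ρ (x j) - 1) (Al ρ x l ((ρ (x i) - 1) (ρ z v - v))))) = 0
    rw [ra (x j), ra (x j)]
    simp only [map_sub] at h4 h5 ⊢
    rw [← sub_eq_zero] at h4 h5
    linear_combination (norm := module) h5 - h4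

theorem claimF (h2 : (2:K) ≠ 0) (h3 : (3:K) ≠ 0) (hN : NF ρ U z) {v : V} (hv : Fx ρ U v)
    (hz : ρ z (ρ z v - v) = ρ z v - v) (l : List (Fin n)) :
    ∃ ε : K, (ε = 1 ∨ ε = -1) ∧ ρ z (Al ρ x l (ρ z v - v)) = ε • Al ρ x l (ρ z v - v) := by
  induction l using List.reverseRecOn with
  | nil => exact ⟨1, Or.inl rfl, by rw [one_smul]; exact hz⟩
  | append_singleton l i ih =>
    obtain ⟨ε, hε, h⟩ := ih
    have hq := qv_u h2 h3 H hN hv
    have hD := lemD H h2 h3 hN hv i l 1 U.one_mem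
    simp only [map_one, Module.End.one_apply] at hD
    rw [Al_append]
    show ∃ ε : K, (ε = 1 ∨ ε = -1) ∧ ρ z (Al ρ x l ((ρ (x i) - 1) (ρ z v - v))) =
      ε • Al ρ x l ((ρ (x i) - 1) (ρ z v - v))
    rcases eq_or_ne l [] with rfl | hl
    · rw [if_pos rfl] at hD
      refine ⟨1, Or.inl rfl, ?_⟩
      rw [one_smul]
      change (ρ (x i) - 1) (ρ z (ρ z v - v)) + ρ z ((ρ (x i) - 1) (ρ z v - v)) = _ at hD
      show ρ z ((ρ (x i) - 1) (ρ z v - v)) = (ρ (x i) - 1) (ρ z v - v)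
      rw [hz] at hD
      linear_combination (norm := module) hD
    · rw [if_neg hl, h, map_smul] at hD
      obtain ⟨δ, hδ, h5⟩ := A_comm H l i hq
      have h6 : (ρ (x i) - 1) (Al ρ x l (ρ z v - v)) =
          δ • Al ρ x l ((ρ (x i) - 1) (ρ z v - v)) := by
        rw [h5, smul_smul]
        have : δ * δ = 1 := by rcases hδ with h | h <;> rw [h] <;> ring
        rw [this, one_smul]
      rw [h6, smul_smul] at hD
      refine ⟨-(ε * δ), ?_, ?_⟩
      · rcases hε with h | h <;> rcases hδ with h' | h' <;> rw [h, h'] <;> simp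
      · rw [neg_smul]
        exact eq_neg_of_add_eq_zero_right hD

/-- case F1 -/
theorem caseF1 (h2 : (2:K) ≠ 0) (h3 : (3:K) ≠ 0) (hN : NF ρ U z) {v : V} (hv : Fx ρ U v)
    (hz : ρ z (ρ z v - v) = ρ z v - v) : v = 0 := by
  by_contra hv0
  by_cases hu : ρ z v - v = 0
  · exact hv0 (hN v hv (sub_eq_zero.1 hu))
  have hq := qv_u h2 h3 H hN hv
  obtain ⟨l, h4, h5⟩ := exists_max H hq hu
  obtain ⟨ε, hε, h6⟩ := claimF H h2 h3 hN hv hz l
  obtain ⟨e, he⟩ : ∃ e, e = Al ρ x l (ρ z v - v) := ⟨_, rfl⟩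
  rw [← he] at h4 h5 h6
  have hfx := fx_of H h5
  rcases hε with rfl | rfl
  · rw [one_smul] at h6
    exact h4 (hN e hfx h6)
  · have hc : (ρ z - 1) ^ 3 = 0 := by
      have := H.zC 1 U.one_mem 1 U.one_mem
      rwa [one_mul, mul_one] at this
    have h7 := cube_apply hc e
    have h8 : (ρ z - 1) e = (-2:K) • e := by
      rw [ra, h6]; module
    rw [h8, map_smul, h8, map_smul, map_smul, h8, smul_smul, smul_smul] at h7
    have h9 : (-2 * -2 * -2 : K) ≠ 0 := by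
      have : (-2 * -2 * -2 : K) = -(2 * 2 * 2) := by ring
      rw [this]
      exact neg_ne_zero.2 (mul_ne_zero (mul_ne_zero h2 h2) h2)
    exact h4 ((smul_eq_zero.1 h7).resolve_left h9)

/-- the induction step -/
theorem step (h2 : (2:K) ≠ 0) (h3 : (3:K) ≠ 0) (hE : ∃ v, v ≠ 0 ∧ Fx ρ U v) :
    ∃ v, v ≠ 0 ∧ Fx ρ U v ∧ ρ z v = v := by
  by_contra hcon
  have hN : NF ρ U z := by
    intro v h4 h5
    by_contra h6
    exact hcon ⟨v, h6, h4, h5⟩
  obtain ⟨v, hv0, hv⟩ := hE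
  have hc : (ρ z - 1) ^ 3 = 0 := by
    have := H.zC 1 U.one_mem 1 U.one_mem
    rwa [one_mul, mul_one] at this
  have hu : ρ z v - v ≠ 0 := fun h => hv0 (hN v hv (sub_eq_zero.1 h))
  have hq := qv_u h2 h3 H hN hv
  -- if `f` is fixed by `U` and `f = (z - 1) e` then `f = 0`
  have fin : ∀ e, Fx ρ U (ρ z e - e) → ρ z e - e = 0 := by
    intro e hf
    apply caseF1 H h2 h3 hN hf
    have h7 := cube_apply hc e
    simp only [ra] at h7
    exact sub_eq_zero.1 h7
  obtain ⟨l, h4, h5⟩ := exists_max H hq hu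
  have hfx := fx_of H h5
  rcases eq_or_ne l [] with rfl | hl
  · exact hu (fin v hfx)
  · have hfz : Fx ρ U (ρ z (Al ρ x l (ρ z v - v))) := by
      apply fx_of H
      intro k
      have hD := lemD H h2 h3 hN hv k l 1 U.one_mem
      simp only [map_one, Module.End.one_apply] at hD
      rw [if_neg hl] at hD
      obtain ⟨δ, hδ, h6⟩ := A_comm H l k hq
      rw [h6, h5 k, smul_zero, map_zero, add_zero] at hD
      exact hD
    have h7 := fin (Al ρ x l (ρ z v - v)) (fun w hw => by rw [map_sub, hfz w hw, hfx w hw])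
    exact h4 (hN _ hfx (sub_eq_zero.1 h7))

end

end Pool.Agent.TH95.PR
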