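import Mathlib
import Pool.Agent.TH95.PR.Step3

set_option autoImplicit false

namespace Pool.Agent.TH95.PR

/-- the primitive elements of the free group of rank `n`: the images of the free generators under
automorphisms -/
def Prim (n : ℕ) : Set (FreeGroup (Fin n)) :=
  {g | ∃ σ : FreeGroup (Fin n) ≃* FreeGroup (Fin n), ∃ i, g = σ (FreeGroup.of i)}

section
variable {n : ℕ}

/-- inclusion of the free factor -/
def io (n : ℕ) : FreeGroup (Fin n) →* FreeGroup (Fin (n + 1)) := FreeGroup.map Fin.castSucc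

theorem io_of (i : Fin n) : io n (FreeGroup.of i) = FreeGroup.of i.castSucc := by
  simp [io]

/-- the last generator -/
def zl (n : ℕ) : FreeGroup (Fin (n + 1)) := FreeGroup.of (Fin.last n)

/-- homomorphism given by the images of the first `n` generators and of the last -/
def lf (f : Fin n → FreeGroup (Fin (n + 1))) (t : FreeGroup (Fin (n + 1))) :
    FreeGroup (Fin (n + 1)) →* FreeGroup (Fin (n + 1)) :=
  FreeGroup.lift (Fin.lastCases t f)

theorem lf_z (f : Fin n → FreeGroup (Fin (n + 1))) (t : FreeGroup (Fin (n + 1))) :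
    lf f t (zl n) = t := by
  simp [lf, zl]

theorem lf_of (f : Fin n → FreeGroup (Fin (n + 1))) (t : FreeGroup (Fin (n + 1))) (i : Fin n) :
    lf f t (FreeGroup.of i.castSucc) = f i := by
  simp [lf]

theorem lf_io (f : Fin n → FreeGroup (Fin (n + 1))) (t : FreeGroup (Fin (n + 1)))
    (φ : FreeGroup (Fin n) →* FreeGroup (Fin (n + 1))) (h : ∀ i, f i = φ (FreeGroup.of i))
    (w : FreeGroup (Fin n)) : lf f t (io n w) = φ w := by
  have : (lf f t).comp (io n) = φ := by
    apply FreeGroup.ext_hom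
    intro i
    rw [MonoidHom.comp_apply, io_of, lf_of, h]
  exact DFunLike.congr_fun this w

theorem hom_ext' {φ ψ : FreeGroup (Fin (n + 1)) →* FreeGroup (Fin (n + 1))}
    (h1 : ∀ i : Fin n, φ (FreeGroup.of i.castSucc) = ψ (FreeGroup.of i.castSucc))
    (h2 : φ (zl n) = ψ (zl n)) : φ = ψ := by
  apply FreeGroup.ext_hom
  intro i
  induction i using Fin.lastCases with
  | last => exact h2
  | cast i => exact h1 i

/-- extension of an automorphism -/
def eHom (φ : FreeGroup (Fin n) →* FreeGroup (Fin n)) :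
    FreeGroup (Fin (n + 1)) →* FreeGroup (Fin (n + 1)) :=
  lf (fun i => io n (φ (FreeGroup.of i))) (zl n)

theorem eHom_io (φ : FreeGroup (Fin n) →* FreeGroup (Fin n)) (w : FreeGroup (Fin n)) :
    eHom φ (io n w) = io n (φ w) :=
  lf_io _ _ ((io n).comp φ) (fun _ => rfl) w

theorem eHom_z (φ : FreeGroup (Fin n) →* FreeGroup (Fin n)) : eHom φ (zl n) = zl n := lf_z _ _

def eAut (σ : FreeGroup (Fin n) ≃* FreeGroup (Fin n)) :
    FreeGroup (Fin (n + 1)) ≃* FreeGroup (Fin (n + 1)) :=
  MonoidHom.toMulEquiv (eHom σ.toMonoidHom) (eHom σ.symm.toMonoidHom)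
    (by
      apply hom_ext'
      · intro i
        rw [MonoidHom.comp_apply, ← io_of, eHom_io, eHom_io]
        simp
      · rw [MonoidHom.comp_apply, eHom_z, eHom_z]; rfl)
    (by
      apply hom_ext'
      · intro i
        rw [MonoidHom.comp_apply, ← io_of, eHom_io, eHom_io]
        simp
      · rw [MonoidHom.comp_apply, eHom_z, eHom_z]; rfl)

theorem eAut_apply (σ : FreeGroup (Fin n) ≃* FreeGroup (Fin n)) (y : FreeGroup (Fin (n + 1))) :
    eAut σ y = eHom σ.toMonoidHom y := rfl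

/-- `z ↦ a z b` -/
def bHom (a b : FreeGroup (Fin n)) : FreeGroup (Fin (n + 1)) →* FreeGroup (Fin (n + 1)) :=
  lf (fun i => io n (FreeGroup.of i)) (io n a * zl n * io n b)

theorem bHom_io (a b w : FreeGroup (Fin n)) : bHom a b (io n w) = io n w :=
  lf_io _ _ (io n) (fun _ => rfl) w

theorem bHom_z (a b : FreeGroup (Fin n)) : bHom a b (zl n) = io n a * zl n * io n b := lf_z _ _

theorem bHom_comp (a b : FreeGroup (Fin n)) :
    (bHom a b).comp (bHom a⁻¹ b⁻¹) = MonoidHom.id _ := by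
  apply hom_ext'
  · intro i
    rw [MonoidHom.comp_apply, ← io_of, bHom_io, bHom_io]; rfl
  · rw [MonoidHom.comp_apply, bHom_z, map_mul, map_mul, bHom_io, bHom_io, bHom_z, map_inv, map_inv]
    show _ = zl n
    group

def bAut (a b : FreeGroup (Fin n)) : FreeGroup (Fin (n + 1)) ≃* FreeGroup (Fin (n + 1)) :=
  MonoidHom.toMulEquiv (bHom a b) (bHom a⁻¹ b⁻¹)
    (by have := bHom_comp a⁻¹ b⁻¹; rwa [inv_inv, inv_inv] at this) (bHom_comp a b)

theorem bAut_apply (a b : FreeGroup (Fin n)) (y : FreeGroup (Fin (n + 1))) :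
    bAut a b y = bHom a b y := rfl

/-- `x_i ↦ z^k x_i` -/
def mHom (i : Fin n) (k : ℤ) : FreeGroup (Fin (n + 1)) →* FreeGroup (Fin (n + 1)) :=
  lf (fun j => if j = i then zl n ^ k * FreeGroup.of j.castSucc else FreeGroup.of j.castSucc) (zl n)

theorem mHom_of (i j : Fin n) (k : ℤ) : mHom i k (FreeGroup.of j.castSucc) =
    if j = i then zl n ^ k * FreeGroup.of j.castSucc else FreeGroup.of j.castSucc := lf_of _ _ _

theorem mHom_z (i : Fin n) (k : ℤ) : mHom i k (zl n) = zl n := lf_z _ _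

theorem mHom_comp (i : Fin n) (k : ℤ) : (mHom i k).comp (mHom i (-k)) = MonoidHom.id _ := by
  apply hom_ext'
  · intro j
    rw [MonoidHom.comp_apply, mHom_of]
    by_cases h : j = i
    · rw [if_pos h, map_mul, map_zpow, mHom_z, mHom_of, if_pos h]
      show _ = FreeGroup.of j.castSucc
      group
    · rw [if_neg h, mHom_of, if_neg h]; rfl
  · rw [MonoidHom.comp_apply, mHom_z, mHom_z]; rfl

def mAut (i : Fin n) (k : ℤ) : FreeGroup (Fin (n + 1)) ≃* FreeGroup (Fin (n + 1)) :=
  MonoidHom.toMulEquiv (mHom i k) (mHom i (-k))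
    (by have := mHom_comp i (-k); rwa [neg_neg] at this) (mHom_comp i k)

theorem mAut_apply (i : Fin n) (k : ℤ) (y : FreeGroup (Fin (n + 1))) :
    mAut i k y = mHom i k y := rfl

/-- `x_i ↦ x_i x_j^k` -/
def tHom (i j : Fin n) (k : ℤ) : FreeGroup (Fin n) →* FreeGroup (Fin n) :=
  FreeGroup.lift fun l => if l = i then FreeGroup.of i * FreeGroup.of j ^ k else FreeGroup.of l

theorem tHom_comp {i j : Fin n} (hij : i ≠ j) (k : ℤ) :
    (tHom i j k).comp (tHom i j (-k)) = MonoidHom.id _ := by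
  have e : ∀ k l, tHom i j k (FreeGroup.of l) =
      if l = i then FreeGroup.of i * FreeGroup.of j ^ k else FreeGroup.of l := by
    intro k l
    simp [tHom]
  apply FreeGroup.ext_hom
  intro l
  rw [MonoidHom.comp_apply, e]
  by_cases h : l = i
  · rw [if_pos h, map_mul, map_zpow, e, if_pos rfl, e, if_neg hij.symm, h]
    show _ = FreeGroup.of i
    group
  · rw [if_neg h, e, if_neg h]; rfl

def tAut {i j : Fin n} (hij : i ≠ j) : FreeGroup (Fin n) ≃* FreeGroup (Fin n) :=
  MonoidHom.toMulEquiv (tHom i j 1) (tHom i j (-1))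
    (by have := tHom_comp hij (-1); rwa [neg_neg] at this) (tHom_comp hij 1)

theorem prim_of (i : Fin n) : FreeGroup.of i ∈ Prim n := ⟨MulEquiv.refl _, i, rfl⟩

theorem prim_mul {i j : Fin n} (hij : i ≠ j) : FreeGroup.of i * FreeGroup.of j ∈ Prim n := by
  refine ⟨tAut hij, i, ?_⟩
  show _ = tHom i j 1 (FreeGroup.of i)
  simp [tHom]

theorem prim_io {g : FreeGroup (Fin n)} (hg : g ∈ Prim n) : io n g ∈ Prim (n + 1) := by
  obtain ⟨σ, i, rfl⟩ := hg
  refine ⟨eAut σ, i.castSucc, ?_⟩
  rw [eAut_apply, ← io_of, eHom_io]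
  rfl

theorem prim_z (a b : FreeGroup (Fin n)) : io n a * zl n * io n b ∈ Prim (n + 1) :=
  ⟨bAut a b, Fin.last n, by rw [bAut_apply]; exact (bHom_z a b).symm⟩

theorem prim_zk (a b : FreeGroup (Fin n)) {g : FreeGroup (Fin n)} (hg : g ∈ Prim n) (k : ℤ) :
    (io n a * zl n * io n b) ^ k * io n g ∈ Prim (n + 1) := by
  obtain ⟨σ, i, rfl⟩ := hg
  refine ⟨((mAut i k).trans (eAut σ)).trans (bAut a b), i.castSucc, ?_⟩
  rw [MulEquiv.trans_apply, MulEquiv.trans_apply, mAut_apply, mHom_of, if_pos rfl, map_mul,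
    map_mul, map_zpow, map_zpow, eAut_apply, eHom_z, bAut_apply, bHom_z, eAut_apply, ← io_of,
    eHom_io, bAut_apply, bHom_io]
  rfl

end

universe u v

/-- a common fixed vector -/
theorem fixedVec {K : Type u} [Field K] (h2 : (2:K) ≠ 0) (h3 : (3:K) ≠ 0) {V : Type v}
    [AddCommGroup V] [Module K V] [Nontrivial V] : ∀ (n : ℕ)
    (ρ : FreeGroup (Fin n) →* Module.End K V), (∀ g ∈ Prim n, (ρ g - 1) ^ 3 = 0) →
    ∃ v : V, v ≠ 0 ∧ ∀ g, ρ g v = v := by
  intro n
  induction n with
  | zero =>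
    intro ρ _
    obtain ⟨v, hv⟩ := exists_ne (0 : V)
    refine ⟨v, hv, fun g => ?_⟩
    have : g = 1 := Subsingleton.elim _ _
    rw [this, map_one, Module.End.one_apply]
  | succ n ih =>
    intro ρ hρ
    obtain ⟨v, hv0, hv⟩ := ih (ρ.comp (io n)) (fun g hg => hρ _ (prim_io hg))
    have gen : ∀ v : V, (∀ i : Fin n, ρ (FreeGroup.of i.castSucc) v = v) →
        ∀ w : FreeGroup (Fin n), ρ (io n w) v = v := by
      intro v h w
      induction w using FreeGroup.induction_on with
      | C1 => rw [map_one, map_one, Module.End.one_apply]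
      | of i => rw [io_of]; exact h i
      | inv_of i hi =>
        rw [map_inv]
        conv_lhs => rw [← hi]
        rw [rho_inv]
      | mul a b ha hb => rw [map_mul, rm, hb, ha]
    have H : Hyp ρ (io n).range (zl n) (io n '' Prim n) (fun i : Fin n => FreeGroup.of i.castSucc) := by
      refine ⟨?_, ?_, ?_, ?_, ?_, ?_, ?_⟩
      · rintro v h w ⟨w, rfl⟩
        exact gen v h w
      · rintro g ⟨g, _, rfl⟩
        exact ⟨g, rfl⟩
      · intro i
        exact ⟨FreeGroup.of i, prim_of i, io_of i⟩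
      · intro i j hij
        exact ⟨FreeGroup.of i * FreeGroup.of j, prim_mul hij, by rw [map_mul, io_of, io_of]⟩
      · rintro g ⟨g, hg, rfl⟩
        exact hρ _ (prim_io hg)
      · rintro w0 ⟨a, rfl⟩ w ⟨b, rfl⟩
        exact hρ _ (prim_z a b)
      · rintro w0 ⟨a, rfl⟩ w ⟨b, rfl⟩ g ⟨g, hg, rfl⟩ k
        exact hρ _ (prim_zk a b hg k)
    obtain ⟨v', hv0', hfx, hz⟩ := step H h2 h3 ⟨v, hv0, by
      rintro w ⟨w, rfl⟩
      exact hv w⟩
    refine ⟨v', hv0', fun g => ?_⟩
    have hg : ∀ i : Fin (n + 1), ρ (FreeGroup.of i) v' = v' := by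
      intro i
      induction i using Fin.lastCases with
      | last => exact hz
      | cast i => exact hfx _ ⟨FreeGroup.of i, io_of i⟩
    induction g using FreeGroup.induction_on with
    | C1 => rw [map_one, Module.End.one_apply]
    | of i => exact hg i
    | inv_of i hi =>
      conv_lhs => rw [← hi]
      rw [rho_inv]
    | mul a b ha hb => rw [rm, hb, ha]

end Pool.Agent.TH95.PR
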