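import Mathlib
import Pool.Agent.TH95.PR.Free

set_option autoImplicit false

namespace Pool.Agent.TH95.PR

universe u v w

variable {K : Type u} [Field K] {V : Type v} [AddCommGroup V] [Module K V]
variable {G : Type w} [Group G]

/-- the ascending series of fixed spaces -/
def Wf (ρ : G →* Module.End K V) : ℕ → Submodule K V
  | 0 => ⊥
  | i + 1 => ⨅ g, (Wf ρ i).comap (ρ g - 1)

variable (ρ : G →* Module.End K V)

theorem mem_Wf {i : ℕ} {y : V} : y ∈ Wf ρ (i + 1) ↔ ∀ g, (ρ g - 1) y ∈ Wf ρ i := by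
  show y ∈ ⨅ g, (Wf ρ i).comap (ρ g - 1) ↔ _
  rw [Submodule.mem_iInf]
  rfl

theorem Wf_mono (i : ℕ) : Wf ρ i ≤ Wf ρ (i + 1) := by
  induction i with
  | zero => exact bot_le
  | succ i ih =>
    intro y hy
    rw [mem_Wf] at hy ⊢
    exact fun g => ih (hy g)

theorem Wf_stab (i : ℕ) (g : G) {y : V} (hy : y ∈ Wf ρ i) : ρ g y ∈ Wf ρ i := by
  cases i with
  | zero =>
    have : y = 0 := hy
    rw [this, map_zero]
    exact Submodule.zero_mem _
  | succ i =>
    have h1 := Wf_mono ρ i ((mem_Wf ρ).1 hy g)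
    rw [f1 ρ (g := g) y]
    exact Submodule.add_mem _ hy h1

/-- quotient representation -/
def qrep (i : ℕ) : G →* Module.End K (V ⧸ Wf ρ i) where
  toFun g := (Wf ρ i).mapQ (Wf ρ i) (ρ g) (fun _ hy => Wf_stab ρ i g hy)
  map_one' := by
    apply LinearMap.ext
    intro y
    obtain ⟨y, rfl⟩ := Submodule.Quotient.mk_surjective _ y
    rw [Submodule.mapQ_apply, map_one]; rfl
  map_mul' g h := by
    apply LinearMap.ext
    intro y
    obtain ⟨y, rfl⟩ := Submodule.Quotient.mk_surjective _ y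
    rw [Module.End.mul_apply, Submodule.mapQ_apply, Submodule.mapQ_apply, Submodule.mapQ_apply,
      map_mul, Module.End.mul_apply]

theorem qrep_apply (i : ℕ) (g : G) (y : V) :
    qrep ρ i g (Submodule.Quotient.mk y) = Submodule.Quotient.mk (ρ g y) := rfl

theorem qrep_sub (i : ℕ) (g : G) (y : V) :
    (qrep ρ i g - 1) (Submodule.Quotient.mk y) = Submodule.Quotient.mk ((ρ g - 1) y) := by
  rw [ra, ra, qrep_apply, Submodule.Quotient.mk_sub]

variable {n : ℕ} (π : FreeGroup (Fin n) →* G)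

theorem Wf_lt (h2 : (2:K) ≠ 0) (h3 : (3:K) ≠ 0) (hπ : Function.Surjective π)
    (hc : ∀ g ∈ Prim n, (ρ (π g) - 1) ^ 3 = 0) (i : ℕ) (hi : Wf ρ i ≠ ⊤) :
    Wf ρ i < Wf ρ (i + 1) := by
  have : Nontrivial (V ⧸ Wf ρ i) := Submodule.Quotient.nontrivial_iff.2 hi
  obtain ⟨v, hv0, hv⟩ := fixedVec h2 h3 (V := V ⧸ Wf ρ i) n ((qrep ρ i).comp π) (by
    intro g hg
    apply LinearMap.ext
    intro y
    obtain ⟨y, rfl⟩ := Submodule.Quotient.mk_surjective _ y
    rw [pow_succ, pow_succ, pow_one]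
    show (qrep ρ i (π g) - 1) ((qrep ρ i (π g) - 1) ((qrep ρ i (π g) - 1)
      (Submodule.Quotient.mk y))) = 0
    rw [qrep_sub, qrep_sub, qrep_sub, cube_apply (hc g hg)]
    rfl)
  obtain ⟨y, rfl⟩ := Submodule.Quotient.mk_surjective _ v
  have hy : y ∉ Wf ρ i := fun h => hv0 ((Submodule.Quotient.mk_eq_zero _).2 h)
  have hy' : y ∈ Wf ρ (i + 1) := by
    rw [mem_Wf]
    intro g
    obtain ⟨w, rfl⟩ := hπ g
    have h1 := hv w
    have h4 : (qrep ρ i (π w) - 1) (Submodule.Quotient.mk y) = 0 := by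
      rw [ra]
      exact sub_eq_zero.2 h1
    rw [qrep_sub] at h4
    exact (Submodule.Quotient.mk_eq_zero _).1 h4
  exact lt_of_le_of_ne (Wf_mono ρ i) fun h => hy (h ▸ hy')

theorem Wf_top (h2 : (2:K) ≠ 0) (h3 : (3:K) ≠ 0) (hπ : Function.Surjective π)
    (hc : ∀ g ∈ Prim n, (ρ (π g) - 1) ^ 3 = 0) [FiniteDimensional K V] :
    Wf ρ (Module.finrank K V) = ⊤ := by
  have key : ∀ i, Wf ρ i = ⊤ ∨ i ≤ Module.finrank K (Wf ρ i) := by
    intro i
    induction i with
    | zero => right; exact Nat.zero_le _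
    | succ i ih =>
      by_cases h : Wf ρ i = ⊤
      · left
        exact top_le_iff.1 (h ▸ Wf_mono ρ i)
      · right
        have h4 := ih.resolve_left h
        have h5 := Submodule.finrank_lt_finrank_of_lt (Wf_lt ρ π h2 h3 hπ hc i h)
        omega
  rcases key (Module.finrank K V) with h | h
  · exact h
  · exact Submodule.eq_top_of_finrank_eq (le_antisymm (Submodule.finrank_le _) h)

theorem prod_mem (l : List G) : ∀ (i : ℕ) (y : V), y ∈ Wf ρ (i + l.length) →
    (l.map fun g => ρ g - 1).prod y ∈ Wf ρ i := by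
  induction l with
  | nil => intro i y hy; simpa using hy
  | cons g l ih =>
    intro i y hy
    rw [List.map_cons, List.prod_cons, Module.End.mul_apply]
    have h1 := ih (i + 1) y (by
      rw [List.length_cons] at hy
      rw [show i + 1 + l.length = i + (l.length + 1) by omega]
      exact hy)
    exact (mem_Wf ρ).1 h1 g

/-- the elements that move down `k` steps -/
def Dk (k : ℕ) : Subgroup G where
  carrier := {g | ∀ i, ∀ y ∈ Wf ρ (i + k), (ρ g - 1) y ∈ Wf ρ i}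
  one_mem' := by
    intro i y _
    rw [map_one, sub_self]
    exact Submodule.zero_mem _
  mul_mem' := by
    intro g h hg hh i y hy
    have e : (ρ (g * h) - 1) y = (ρ g - 1) (ρ h y) + (ρ h - 1) y := by
      rw [ra, ra, ra, rm]; abel
    rw [e]
    exact Submodule.add_mem _ (hg i _ (Wf_stab ρ _ h hy)) (hh i y hy)
  inv_mem' := by
    intro g hg i y hy
    have e : (ρ g⁻¹ - 1) y = -(ρ g - 1) (ρ g⁻¹ y) := by
      rw [ra, ra, rho_inv']; abel
    rw [e]
    exact Submodule.neg_mem _ (hg i _ (Wf_stab ρ _ _ hy))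

theorem lcs_le (k : ℕ) : (⊤ : Subgroup G).lowerCentralSeries k ≤ Dk ρ (k + 1) := by
  induction k with
  | zero =>
    intro g _ i y hy
    exact (mem_Wf ρ).1 hy g
  | succ k ih =>
    rw [Subgroup.lowerCentralSeries_succ, Subgroup.commutator_le]
    intro g hg h _
    show g * h * g⁻¹ * h⁻¹ ∈ Dk ρ (k + 1 + 1)
    intro i y hy
    obtain ⟨y', hy'⟩ : ∃ y', y' = ρ (g⁻¹ * h⁻¹) y := ⟨_, rfl⟩
    have hm : y' ∈ Wf ρ (i + (k + 1 + 1)) := by rw [hy']; exact Wf_stab ρ _ _ hy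
    have e1 : ρ g (ρ h y') = ρ (g * h * g⁻¹ * h⁻¹) y := by
      rw [hy', ← rm, ← rm]
      congr 2
      group
    have e2 : ρ h (ρ g y') = y := by
      rw [hy', ← rm, ← rm]
      have : h * g * (g⁻¹ * h⁻¹) = 1 := by group
      rw [this, map_one, Module.End.one_apply]
    have e : (ρ (g * h * g⁻¹ * h⁻¹) - 1) y = (ρ g - 1) ((ρ h - 1) y') - (ρ h - 1) ((ρ g - 1) y') := by
      have : (ρ (g * h * g⁻¹ * h⁻¹) - 1) y = ρ g (ρ h y') - ρ h (ρ g y') := by rw [ra, e1, e2]
      rw [this]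
      simp only [ra, map_sub]
      abel
    rw [e]
    refine Submodule.sub_mem _ ?_ ?_
    · apply ih hg i
      have h1 : y' ∈ Wf ρ (i + (k + 1) + 1) := hm
      exact (mem_Wf ρ).1 h1 h
    · have h1 : y' ∈ Wf ρ ((i + 1) + (k + 1)) := by
        rw [show i + 1 + (k + 1) = i + (k + 1 + 1) by omega]; exact hm
      exact (mem_Wf ρ).1 (ih hg (i + 1) y' h1) h

/-- the main theorem -/
theorem unip (h2 : (2:K) ≠ 0) (h3 : (3:K) ≠ 0) (hπ : Function.Surjective π)
    (hc : ∀ g ∈ Prim n, (ρ (π g) - 1) ^ 3 = 0) [FiniteDimensional K V] (l : List G)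
    (hl : l.length = Module.finrank K V) : (l.map fun g => ρ g - 1).prod = 0 := by
  apply LinearMap.ext
  intro y
  have h := prod_mem ρ l 0 y (by rw [zero_add, hl, Wf_top ρ π h2 h3 hπ hc]; trivial)
  exact h

theorem nilp (h2 : (2:K) ≠ 0) (h3 : (3:K) ≠ 0) (hπ : Function.Surjective π)
    (hc : ∀ g ∈ Prim n, (ρ (π g) - 1) ^ 3 = 0) [FiniteDimensional K V]
    (hρ : Function.Injective ρ) : Group.IsNilpotent G := by
  rw [Subgroup.nilpotent_iff_lowerCentralSeries]
  refine ⟨Module.finrank K V, ?_⟩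
  rw [eq_bot_iff]
  intro g hg
  have h1 := lcs_le ρ _ hg
  rw [Subgroup.mem_bot]
  apply hρ
  rw [map_one]
  apply LinearMap.ext
  intro y
  have h4 : y ∈ Wf ρ (0 + (Module.finrank K V + 1)) := by
    rw [zero_add]
    apply Wf_mono
    rw [Wf_top ρ π h2 h3 hπ hc]; trivial
  have h5 : (ρ g - 1) y = 0 := h1 0 y h4
  rw [ra] at h5
  rw [Module.End.one_apply]
  exact sub_eq_zero.1 h5

end Pool.Agent.TH95.PR
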