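import Mathlib
import Pool.Agent.TH95.PR.Nil

set_option autoImplicit false

namespace Pool.Agent.TH95.PR

universe u w

variable {K : Type u} [Field K] {d : ℕ}

/-- matrices act on column vectors -/
def toEnd (K : Type u) [Field K] (d : ℕ) :
    Matrix.GeneralLinearGroup (Fin d) K →* Module.End K (Fin d → K) :=
  ((Matrix.toLinAlgEquiv' : Matrix (Fin d) (Fin d) K ≃ₐ[K] _).toAlgHom.toRingHom.toMonoidHom).comp
    (Units.coeHom _)

theorem toEnd_apply (M : Matrix.GeneralLinearGroup (Fin d) K) :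
    toEnd K d M = (Matrix.toLinAlgEquiv' : Matrix (Fin d) (Fin d) K ≃ₐ[K] _)
      (M : Matrix (Fin d) (Fin d) K) := rfl

theorem toEnd_inj : Function.Injective (toEnd K d) := by
  intro M N h
  apply Units.ext
  exact (Matrix.toLinAlgEquiv' : Matrix (Fin d) (Fin d) K ≃ₐ[K] _).injective h

theorem toEnd_cube {M : Matrix.GeneralLinearGroup (Fin d) K}
    (h : ((M : Matrix (Fin d) (Fin d) K) - 1) ^ 3 = 0) : (toEnd K d M - 1) ^ 3 = 0 := by
  rw [toEnd_apply, ← map_one (Matrix.toLinAlgEquiv' : Matrix (Fin d) (Fin d) K ≃ₐ[K] _), ← map_sub,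
    ← map_pow, h, map_zero]

theorem mat_unip (h2 : (2:K) ≠ 0) (h3 : (3:K) ≠ 0) {n : ℕ}
    (ρ : FreeGroup (Fin n) →* Matrix.GeneralLinearGroup (Fin d) K)
    (hc : ∀ g ∈ Prim n, ((ρ g : Matrix (Fin d) (Fin d) K) - 1) ^ 3 = 0)
    (l : List (FreeGroup (Fin n))) (hl : l.length = d) :
    (l.map fun g => (ρ g : Matrix (Fin d) (Fin d) K) - 1).prod = 0 := by
  have h := unip ((toEnd K d).comp ρ) (MonoidHom.id _) h2 h3 Function.surjective_id
    (fun g hg => toEnd_cube (hc g hg)) l (by rw [hl]; simp)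
  apply (Matrix.toLinAlgEquiv' : Matrix (Fin d) (Fin d) K ≃ₐ[K] _).injective
  rw [map_zero, map_list_prod, List.map_map, ← h]
  congr 1
  apply List.map_congr_left
  intro g _
  show (Matrix.toLinAlgEquiv' : Matrix (Fin d) (Fin d) K ≃ₐ[K] _)
    ((ρ g : Matrix (Fin d) (Fin d) K) - 1) = _
  rw [map_sub, map_one]
  rfl

theorem mat_nilp (h2 : (2:K) ≠ 0) (h3 : (3:K) ≠ 0) {n : ℕ}
    (ρ : FreeGroup (Fin n) →* Matrix.GeneralLinearGroup (Fin d) K)
    (hc : ∀ g ∈ Prim n, ((ρ g : Matrix (Fin d) (Fin d) K) - 1) ^ 3 = 0) :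
    Group.IsNilpotent ρ.range :=
  nilp ((toEnd K d).comp ρ.range.subtype) ρ.rangeRestrict h2 h3 ρ.rangeRestrict_surjective
    (fun g hg => toEnd_cube (hc g hg))
    (toEnd_inj.comp Subtype.val_injective)

end Pool.Agent.TH95.PR
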