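import Mathlib
import Pool.Agent.TH95.PR.Mat

set_option autoImplicit false

namespace Pool.Agent.TH95.PR

universe u

section
variable {m : ℕ}

/-- `w ↦ (z ↦ z w)` -/
def Rh (m : ℕ) : FreeGroup (Fin m) →* MulAut (FreeGroup (Fin (m + 1))) where
  toFun w := bAut 1 w
  map_one' := by
    apply MulEquiv.toMonoidHom_injective
    apply hom_ext'
    · intro i
      show bHom 1 1 (FreeGroup.of i.castSucc) = FreeGroup.of i.castSucc
      rw [← io_of, bHom_io]
    · show bHom 1 1 (zl m) = zl m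
      rw [bHom_z]; simp
  map_mul' w w' := by
    apply MulEquiv.toMonoidHom_injective
    apply hom_ext'
    · intro i
      show bHom 1 (w * w') (FreeGroup.of i.castSucc) =
        bHom 1 w (bHom 1 w' (FreeGroup.of i.castSucc))
      rw [← io_of, bHom_io, bHom_io, bHom_io]
    · show bHom 1 (w * w') (zl m) = bHom 1 w (bHom 1 w' (zl m))
      rw [bHom_z, bHom_z]
      simp only [map_mul, map_one, one_mul, bHom_io, bHom_z, mul_assoc]

theorem Rh_z (w : FreeGroup (Fin m)) : Rh m w (zl m) = zl m * io m w := by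
  show bHom 1 w (zl m) = _
  rw [bHom_z]; simp

theorem Rh_io (w y : FreeGroup (Fin m)) : Rh m w (io m y) = io m y := by
  show bHom 1 w (io m y) = _
  rw [bHom_io]

/-- conjugation by the extension of an automorphism of the free factor -/
theorem Rh_conj (σ : FreeGroup (Fin m) ≃* FreeGroup (Fin m)) (w : FreeGroup (Fin m)) :
    (eAut σ : MulAut (FreeGroup (Fin (m + 1)))) * Rh m w = Rh m (σ w) * eAut σ := by
  apply MulEquiv.toMonoidHom_injective
  apply hom_ext'
  · intro i
    show eHom σ.toMonoidHom (Rh m w (FreeGroup.of i.castSucc)) =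
      Rh m (σ w) (eHom σ.toMonoidHom (FreeGroup.of i.castSucc))
    rw [← io_of, Rh_io, eHom_io, Rh_io]
  · show eHom σ.toMonoidHom (Rh m w (zl m)) = Rh m (σ w) (eHom σ.toMonoidHom (zl m))
    rw [Rh_z, map_mul, eHom_z, eHom_io, Rh_z]
    rfl

/-- permutation automorphism -/
def pAut {n : ℕ} (p : Equiv.Perm (Fin n)) : MulAut (FreeGroup (Fin n)) :=
  FreeGroup.freeGroupCongr p

theorem pAut_of {n : ℕ} (p : Equiv.Perm (Fin n)) (i : Fin n) :
    pAut p (FreeGroup.of i) = FreeGroup.of (p i) := by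
  show FreeGroup.freeGroupCongr p (FreeGroup.of i) = _
  simp

theorem perm_exists {i j : Fin (m + 1)} (hij : i ≠ j) (k : Fin m) :
    ∃ p : Equiv.Perm (Fin (m + 1)), p i = Fin.last m ∧ p j = k.castSucc := by
  have h1 : Equiv.swap i (Fin.last m) j ≠ Fin.last m := by
    intro h
    have := congrArg (Equiv.swap i (Fin.last m)) h
    rw [Equiv.swap_apply_self, Equiv.swap_apply_right] at this
    exact hij this.symm
  refine ⟨(Equiv.swap i (Fin.last m)).trans
    (Equiv.swap (Equiv.swap i (Fin.last m) j) k.castSucc), ?_, ?_⟩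
  · rw [Equiv.trans_apply, Equiv.swap_apply_left]
    exact Equiv.swap_apply_of_ne_of_ne h1.symm (Fin.castSucc_lt_last k).ne'
  · rw [Equiv.trans_apply, Equiv.swap_apply_left]

/-- every transvection is conjugate to `Rh (of k)` -/
theorem transv_conj {i j : Fin (m + 1)} (hij : i ≠ j) (k : Fin m)
    (τ : MulAut (FreeGroup (Fin (m + 1)))) (h1 : τ (FreeGroup.of i) = FreeGroup.of i * FreeGroup.of j)
    (h2 : ∀ l, l ≠ i → τ (FreeGroup.of l) = FreeGroup.of l) :
    ∃ p : MulAut (FreeGroup (Fin (m + 1))), p * τ = Rh m (FreeGroup.of k) * p := by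
  obtain ⟨p, hp1, hp2⟩ := perm_exists hij k
  refine ⟨pAut p, ?_⟩
  apply MulEquiv.toMonoidHom_injective
  apply FreeGroup.ext_hom
  intro l
  show pAut p (τ (FreeGroup.of l)) = Rh m (FreeGroup.of k) (pAut p (FreeGroup.of l))
  by_cases hl : l = i
  · rw [hl, h1, map_mul, pAut_of, pAut_of, hp1, hp2]
    have := Rh_z (FreeGroup.of k : FreeGroup (Fin m))
    rw [io_of] at this
    exact this.symm
  · rw [h2 l hl, pAut_of]
    have h4 : p l ≠ Fin.last m := fun h => hl (p.injective (h.trans hp1.symm))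
    obtain ⟨l', hl'⟩ := Fin.exists_castSucc_eq.2 h4
    rw [← hl', ← io_of, Rh_io]

end

section dihedral

/-- the values of the generators in the dihedral group of order 6 -/
def th (n : ℕ) (i : Fin n) : DihedralGroup 3 :=
  if (i : ℕ) = 0 then DihedralGroup.sr 0 else if (i : ℕ) = 1 then DihedralGroup.sr 1 else 1

/-- the homomorphism to the dihedral group -/
def Th (n : ℕ) : FreeGroup (Fin n) →* DihedralGroup 3 := FreeGroup.lift (th n)

theorem Th_of {n : ℕ} (i : Fin n) : Th n (FreeGroup.of i) = th n i := by simp [Th]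

theorem lcs_ne {m : ℕ} (hm : 2 ≤ m) (k : ℕ) :
    ∃ w ∈ (⊤ : Subgroup (FreeGroup (Fin m))).lowerCentralSeries k,
      Th m w = DihedralGroup.r 1 ∨ Th m w = DihedralGroup.r 2 := by
  induction k with
  | zero =>
    refine ⟨FreeGroup.of ⟨0, by omega⟩ * FreeGroup.of ⟨1, by omega⟩, Subgroup.mem_top _, ?_⟩
    rw [map_mul, Th_of, Th_of]
    left
    simp [th]
  | succ k ih =>
    obtain ⟨w, hw, h⟩ := ih
    refine ⟨w * FreeGroup.of ⟨0, by omega⟩ * w⁻¹ * (FreeGroup.of ⟨0, by omega⟩)⁻¹, ?_, ?_⟩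
    · rw [Subgroup.lowerCentralSeries_succ]
      exact Subgroup.commutator_mem_commutator hw (Subgroup.mem_top _)
    · simp only [map_mul, map_inv, Th_of]
      have e : th m ⟨0, by omega⟩ = DihedralGroup.sr 0 := by simp [th]
      rw [e]
      rcases h with h | h <;> rw [h]
      · right; decide
      · left; decide

/-- trivial centralizer -/
theorem centr0 : ∀ v : DihedralGroup 3, v * DihedralGroup.sr 0 * v⁻¹ = DihedralGroup.sr 0 →
    v * DihedralGroup.sr 1 * v⁻¹ = DihedralGroup.sr 1 → v = 1 := by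
  decide

end dihedral

variable {K : Type u} [Field K] {d : ℕ}

/-- the main theorem on `Aut(F_n)` -/
theorem aut_main (h2 : (2:K) ≠ 0) (h3 : (3:K) ≠ 0) {m : ℕ} (hm : 2 ≤ m)
    (f : MulAut (FreeGroup (Fin (m + 1))) →* Matrix.GeneralLinearGroup (Fin d) K)
    (τ : MulAut (FreeGroup (Fin (m + 1)))) {i j : Fin (m + 1)} (hij : i ≠ j)
    (h1 : τ (FreeGroup.of i) = FreeGroup.of i * FreeGroup.of j)
    (h1' : ∀ l, l ≠ i → τ (FreeGroup.of l) = FreeGroup.of l)
    (hc : ((f τ : Matrix (Fin d) (Fin d) K) - 1) ^ 3 = 0) :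
    ∃ κ : MulAut (FreeGroup (Fin (m + 1))), f κ = 1 ∧ ∀ u, κ ≠ MulAut.conj u := by
  have conjc : ∀ {a b p : MulAut (FreeGroup (Fin (m + 1)))}, p * a = b * p →
      ((f a : Matrix (Fin d) (Fin d) K) - 1) ^ 3 = 0 →
      ((f b : Matrix (Fin d) (Fin d) K) - 1) ^ 3 = 0 := by
    intro a b p hp ha
    have e1 : (f b : Matrix (Fin d) (Fin d) K) =
        (f p : Matrix (Fin d) (Fin d) K) * (f a : Matrix (Fin d) (Fin d) K) *
          (f p⁻¹ : Matrix (Fin d) (Fin d) K) := by
      rw [← Units.val_mul, ← Units.val_mul, ← map_mul, ← map_mul, hp, mul_inv_cancel_right]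
    have e2 : (f p : Matrix (Fin d) (Fin d) K) * (f p⁻¹ : Matrix (Fin d) (Fin d) K) = 1 := by
      rw [← Units.val_mul, ← map_mul, mul_inv_cancel, map_one, Units.val_one]
    have e3 : (f p⁻¹ : Matrix (Fin d) (Fin d) K) * (f p : Matrix (Fin d) (Fin d) K) = 1 := by
      rw [← Units.val_mul, ← map_mul, inv_mul_cancel, map_one, Units.val_one]
    rw [e1]
    generalize (f p : Matrix (Fin d) (Fin d) K) = P at *
    generalize (f p⁻¹ : Matrix (Fin d) (Fin d) K) = Q at *
    generalize (f a : Matrix (Fin d) (Fin d) K) = B at *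
    have e : P * B * Q - 1 = P * (B - 1) * Q := by
      rw [mul_sub, sub_mul, mul_one, e2]
    rw [e]
    calc (P * (B - 1) * Q) ^ 3 = P * (B - 1) * (Q * P) * (B - 1) * (Q * P) * (B - 1) * Q := by
          noncomm_ring
      _ = P * (B - 1) ^ 3 * Q := by rw [e3]; noncomm_ring
      _ = 0 := by rw [ha, mul_zero, zero_mul]
  have hprim : ∀ g ∈ Prim m, (((f.comp (Rh m)) g : Matrix (Fin d) (Fin d) K) - 1) ^ 3 = 0 := by
    rintro g ⟨σ, k, rfl⟩
    obtain ⟨p, hp⟩ := transv_conj hij k τ h1 h1'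
    exact conjc (Rh_conj σ (FreeGroup.of k)) (conjc hp hc)
  have hn := mat_nilp h2 h3 (f.comp (Rh m)) hprim
  rw [Subgroup.nilpotent_iff_lowerCentralSeries] at hn
  obtain ⟨k, hk⟩ := hn
  obtain ⟨w, hw, hT⟩ := lcs_ne hm k
  have hw1 : (f.comp (Rh m)) w = 1 := by
    have h4 : (f.comp (Rh m)).rangeRestrict w ∈
        (⊤ : Subgroup (f.comp (Rh m)).range).lowerCentralSeries k := by
      apply Subgroup.lowerCentralSeries.map (f.comp (Rh m)).rangeRestrict k
      exact Subgroup.mem_map_of_mem _ hw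
    rw [hk, Subgroup.mem_bot] at h4
    exact congrArg Subtype.val h4
  refine ⟨Rh m w, hw1, fun u hu => ?_⟩
  have hTio : ∀ y, Th (m + 1) (io m y) = Th m y := by
    intro y
    have : (Th (m + 1)).comp (io m) = Th m := by
      apply FreeGroup.ext_hom
      intro i
      rw [MonoidHom.comp_apply, io_of, Th_of, Th_of]
      rfl
    exact DFunLike.congr_fun this y
  have hfix : ∀ y : FreeGroup (Fin m), u * io m y * u⁻¹ = io m y := by
    intro y
    have := Rh_io w y
    rw [hu, MulAut.conj_apply] at this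
    exact this
  have hz : u * zl m * u⁻¹ = zl m * io m w := by
    have := Rh_z w
    rw [hu, MulAut.conj_apply] at this
    exact this
  have c0 := congrArg (Th (m + 1)) (hfix (FreeGroup.of ⟨0, by omega⟩))
  have c1 := congrArg (Th (m + 1)) (hfix (FreeGroup.of ⟨1, by omega⟩))
  have c2 := congrArg (Th (m + 1)) hz
  simp only [map_mul, map_inv, hTio, Th_of] at c0 c1 c2
  have e0 : th m ⟨0, by omega⟩ = DihedralGroup.sr 0 := by simp [th]
  have e1 : th m ⟨1, by omega⟩ = DihedralGroup.sr 1 := by simp [th]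
  rw [e0] at c0
  rw [e1] at c1
  have hu1 := centr0 _ c0 c1
  rw [hu1] at c2
  have hTw : Th m w = 1 := by
    have : Th (m + 1) (zl m) * 1 = Th (m + 1) (zl m) * Th m w := by
      rw [← c2]; simp
    exact (mul_left_cancel this).symm
  rw [hTw] at hT
  rcases hT with h | h
  · exact absurd h (by decide)
  · exact absurd h (by decide)

end Pool.Agent.TH95.PR
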