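import Mathlib
import Pool.Agent.TH95.PR.Out

set_option autoImplicit false

namespace Pool.Agent.TH95.PR

universe u

variable {K : Type u} [Field K]

/-- the algebraic lemma -/
theorem quad_alg {R : Type*} [Ring R] [Algebra K R] {A A' B B' : R} (a1 : A * A' = 1)
    (a2 : A' * A = 1) (b1 : B * B' = 1) (b2 : B' * B = 1) (t e : K)
    (qA : A * A = t • A - e • 1) (qB : B * B = t • B - e • 1)
    (qAB : A * B * (A * B) = t • (A * B) - e • 1) (qBA : B * A * (B * A) = t • (B * A) - e • 1)
    (qC : A * B' * (A * B') = t • (A * B') - e • 1) :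
    A * (A * B * A' * B') = A * B * A' * B' * A := by
  rcases eq_or_ne e 0 with rfl | he
  · -- `A` is a scalar
    have h : A = t • (1 : R) := by
      have h1 : A * A * A' = (t • A - (0:K) • 1) * A' := by rw [qA]
      rw [zero_smul, sub_zero, mul_assoc, a1, mul_one, smul_mul_assoc, a1] at h1
      exact h1
    rw [h]
    simp only [smul_mul_assoc, one_mul, mul_smul_comm, mul_one]
  · have iA : e • A' = t • (1:R) - A := by
      have h1 : A * A * A' = (t • A - e • 1) * A' := by rw [qA]
      rw [mul_assoc, a1, mul_one, sub_mul, smul_mul_assoc, smul_mul_assoc, a1, one_mul] at h1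
      rw [h1]; abel
    have iB : e • B' = t • (1:R) - B := by
      have h1 : B * B * B' = (t • B - e • 1) * B' := by rw [qB]
      rw [mul_assoc, b1, mul_one, sub_mul, smul_mul_assoc, smul_mul_assoc, b1, one_mul] at h1
      rw [h1]; abel
    have iAB : e • (B' * A') = t • (1:R) - A * B := by
      have h0 : A * B * (B' * A') = 1 := by
        rw [mul_assoc, ← mul_assoc B, b1, one_mul, a1]
      have h1 : A * B * (A * B) * (B' * A') = (t • (A * B) - e • 1) * (B' * A') := by rw [qAB]
      rw [mul_assoc (A * B), h0, mul_one, sub_mul, smul_mul_assoc, smul_mul_assoc, h0, one_mul] at h1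
      rw [h1]; abel
    have iBA : e • (A' * B') = t • (1:R) - B * A := by
      have h0 : B * A * (A' * B') = 1 := by
        rw [mul_assoc, ← mul_assoc A, a1, one_mul, b1]
      have h1 : B * A * (B * A) * (A' * B') = (t • (B * A) - e • 1) * (A' * B') := by rw [qBA]
      rw [mul_assoc (B * A), h0, mul_one, sub_mul, smul_mul_assoc, smul_mul_assoc, h0, one_mul] at h1
      rw [h1]; abel
    have E1 : e • (t • (1:R) - A * B) = (t • (1:R) - B) * (t • (1:R) - A) := by
      rw [← iAB, ← iA, ← iB, smul_mul_assoc, mul_smul_comm]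
    have E2 : e • (t • (1:R) - B * A) = (t • (1:R) - A) * (t • (1:R) - B) := by
      rw [← iBA, ← iA, ← iB, smul_mul_assoc, mul_smul_comm]
    rcases eq_or_ne e 1 with rfl | he1
    · rw [one_smul] at iA iB E1
      subst iA iB
      have E3 : B * (t • (1:R) - A) = t • (1:R) - A * (t • (1:R) - B) := by
        have h0 : A * (t • (1:R) - B) * (B * (t • (1:R) - A)) = 1 := by
          rw [mul_assoc, ← mul_assoc (t • (1:R) - B), b2, one_mul, a1]
        have h1 : A * (t • (1:R) - B) * (A * (t • (1:R) - B)) * (B * (t • (1:R) - A)) =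
            (t • (A * (t • (1:R) - B)) - (1:K) • 1) * (B * (t • (1:R) - A)) := by rw [qC]
        rw [mul_assoc (A * (t • (1:R) - B)), h0, mul_one, sub_mul, smul_mul_assoc, h0, one_smul,
          one_mul] at h1
        rw [h1]; abel
      have hs : (t * (t - 2)) • (1:R) = 0 := by
        have E1' := E1
        have E3' := E3
        simp only [mul_sub, sub_mul, smul_mul_assoc, mul_smul_comm, mul_one, one_mul] at E1' E3'
        linear_combination (norm := module) E3' - E1'
      rcases smul_eq_zero.1 hs with ht | h10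
      · rcases mul_eq_zero.1 ht with rfl | ht2
        · simp only [zero_smul, zero_sub, one_smul] at qA qB E3 ⊢
          have hBA : B * A = -(A * B) := by
            have : -(B * A) = A * B := by
              have h0 := E3
              rw [mul_neg, mul_neg, neg_neg] at h0
              exact h0
            rw [← this, neg_neg]
          have hC : A * B * -A * -B = -1 := by
            calc A * B * -A * -B = A * (B * A) * B := by noncomm_ring
              _ = -(A * A) * (B * B) := by rw [hBA]; noncomm_ring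
              _ = -1 := by rw [qA, qB]; noncomm_ring
          rw [hC]
          noncomm_ring
        · have ht' : t = 2 := sub_eq_zero.1 ht2
          subst ht'
          obtain ⟨a, rfl⟩ : ∃ a, A = 1 + a := ⟨A - 1, by abel⟩
          obtain ⟨b, rfl⟩ : ∃ b, B = 1 + b := ⟨B - 1, by abel⟩
          have e1 : (2:K) • (1:R) - (1 + a) = 1 - a := by rw [two_smul]; abel
          have e2 : (2:K) • (1:R) - (1 + b) = 1 - b := by rw [two_smul]; abel
          rw [e1, e2] at E3 ⊢
          simp only [two_smul, one_smul] at qA qB E3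
          have haa : a * a = 0 := by
            simp only [mul_add, add_mul, mul_one, one_mul] at qA
            linear_combination (norm := abel) qA
          have hbb : b * b = 0 := by
            simp only [mul_add, add_mul, mul_one, one_mul] at qB
            linear_combination (norm := abel) qB
          have hba : b * a = -(a * b) := by
            simp only [mul_sub, add_mul, mul_one, one_mul] at E3
            linear_combination (norm := abel) -E3
          have haa' : ∀ y, a * (a * y) = 0 := fun y => by rw [← mul_assoc, haa, zero_mul]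
          have hbb' : ∀ y, b * (b * y) = 0 := fun y => by rw [← mul_assoc, hbb, zero_mul]
          have hba' : ∀ y, b * (a * y) = -(a * (b * y)) := fun y => by
            rw [← mul_assoc, hba, neg_mul, mul_assoc]
          simp only [mul_add, add_mul, mul_sub, sub_mul, mul_one, one_mul, mul_assoc, haa, haa',
            hbb, hba, hba', mul_neg, neg_mul, mul_zero, zero_mul, neg_zero]
          abel
      · have : Subsingleton R := ⟨fun x y => by
          rw [← mul_one x, ← mul_one y, h10, mul_zero, mul_zero]⟩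
        exact Subsingleton.elim _ _
    · have hcomm : A * B = B * A := by
        have h1 : (e - 1) • (B * A - A * B) = 0 := by
          simp only [mul_sub, sub_mul, smul_mul_assoc, mul_smul_comm, mul_one, one_mul] at E1 E2
          linear_combination (norm := module) E1 - E2
        have h2 := (smul_eq_zero.1 h1).resolve_left (sub_ne_zero.2 he1)
        exact (sub_eq_zero.1 h2).symm
      have h3 : A * B * A' * B' = 1 := by
        rw [hcomm, mul_assoc B, a1, mul_one, b1]
      rw [h3, mul_one, one_mul]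

section
variable {m : ℕ}

theorem Rh_notInner (hm : 2 ≤ m) {w : FreeGroup (Fin m)} (hT : Th m w ≠ 1)
    (u : FreeGroup (Fin (m + 1))) : Rh m w ≠ MulAut.conj u := by
  intro hu
  have hTio : ∀ y, Th (m + 1) (io m y) = Th m y := by
    intro y
    have : (Th (m + 1)).comp (io m) = Th m := by
      apply FreeGroup.ext_hom
      intro i
      rw [MonoidHom.comp_apply, io_of, Th_of, Th_of]
      rfl
    exact DFunLike.congr_fun this y
  have hfix : ∀ y : FreeGroup (Fin m), u * io m y * u⁻¹ = io m y := by
    intro y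
    have := Rh_io w y
    rw [hu, MulAut.conj_apply] at this
    exact this
  have hz : u * zl m * u⁻¹ = zl m * io m w := by
    have := Rh_z w
    rw [hu, MulAut.conj_apply] at this
    exact this
  have c0 := congrArg (Th (m + 1)) (hfix (FreeGroup.of ⟨0, by omega⟩))
  have c1 := congrArg (Th (m + 1)) (hfix (FreeGroup.of ⟨1, by omega⟩))
  have c2 := congrArg (Th (m + 1)) hz
  simp only [map_mul, map_inv, hTio, Th_of] at c0 c1 c2
  have e0 : th m ⟨0, by omega⟩ = DihedralGroup.sr 0 := by simp [th]
  have e1 : th m ⟨1, by omega⟩ = DihedralGroup.sr 1 := by simp [th]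
  rw [e0] at c0
  rw [e1] at c1
  have hu1 := centr0 _ c0 c1
  rw [hu1] at c2
  have hTw : Th m w = 1 := by
    have : Th (m + 1) (zl m) * 1 = Th (m + 1) (zl m) * Th m w := by
      rw [← c2]; simp
    exact (mul_left_cancel this).symm
  exact hT hTw

/-- `x_i x_j^k` is primitive -/
theorem prim_zpow {i j : Fin m} (hij : i ≠ j) (k : ℤ) :
    FreeGroup.of i * FreeGroup.of j ^ k ∈ Prim m := by
  refine ⟨MonoidHom.toMulEquiv (tHom i j k) (tHom i j (-k))
    (by have := tHom_comp hij (-k); rwa [neg_neg] at this) (tHom_comp hij k), i, ?_⟩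
  show _ = tHom i j k (FreeGroup.of i)
  simp [tHom]

/-- all `Rh g`, `g` primitive, are conjugate to `τ` -/
theorem prim_conj {i j : Fin (m + 1)} (hij : i ≠ j)
    (τ : MulAut (FreeGroup (Fin (m + 1)))) (h1 : τ (FreeGroup.of i) = FreeGroup.of i * FreeGroup.of j)
    (h2 : ∀ l, l ≠ i → τ (FreeGroup.of l) = FreeGroup.of l) {g : FreeGroup (Fin m)}
    (hg : g ∈ Prim m) : ∃ p : MulAut (FreeGroup (Fin (m + 1))), Rh m g = p * τ * p⁻¹ := by
  obtain ⟨σ, k, rfl⟩ := hg
  obtain ⟨p, hp⟩ := transv_conj hij k τ h1 h2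
  refine ⟨(eAut σ : MulAut (FreeGroup (Fin (m + 1)))) * p, ?_⟩
  have h3 := Rh_conj σ (FreeGroup.of k)
  have h4 : Rh m (FreeGroup.of k) = p * τ * p⁻¹ := by rw [hp, mul_inv_cancel_right]
  have h5 : Rh m (σ (FreeGroup.of k)) =
      (eAut σ : MulAut (FreeGroup (Fin (m + 1)))) * Rh m (FreeGroup.of k) * (eAut σ)⁻¹ := by
    rw [h3, mul_inv_cancel_right]
  rw [h5, h4]
  group

variable {d : ℕ}

open Polynomial in
theorem aut_quad (hm : 2 ≤ m)
    (f : MulAut (FreeGroup (Fin (m + 1))) →* Matrix.GeneralLinearGroup (Fin d) K)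
    (τ : MulAut (FreeGroup (Fin (m + 1)))) {i j : Fin (m + 1)} (hij : i ≠ j)
    (h1 : τ (FreeGroup.of i) = FreeGroup.of i * FreeGroup.of j)
    (h1' : ∀ l, l ≠ i → τ (FreeGroup.of l) = FreeGroup.of l)
    (p : K[X]) (hp0 : p ≠ 0) (hp2 : p.natDegree ≤ 2)
    (hp : aeval (f τ : Matrix (Fin d) (Fin d) K) p = 0) :
    ∃ κ : MulAut (FreeGroup (Fin (m + 1))), f κ = 1 ∧ ∀ u, κ ≠ MulAut.conj u := by
  obtain ⟨α, β, γ, hpp⟩ : ∃ α β γ : K, p = C α * X ^ 2 + C β * X + C γ :=
    ⟨_, _, _, eq_quadratic_of_degree_le_two (natDegree_le_iff_degree_le.1 hp2)⟩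
  obtain ⟨q, hq⟩ : ∃ q : Matrix (Fin d) (Fin d) K → Matrix (Fin d) (Fin d) K,
      q = fun M => α • (M * M) + β • M + γ • 1 := ⟨_, rfl⟩
  have hqτ : q (f τ : Matrix (Fin d) (Fin d) K) = 0 := by
    rw [hpp] at hp
    simp only [map_add, map_mul, aeval_C, map_pow, aeval_X, Algebra.algebraMap_eq_smul_one,
      smul_mul_assoc, one_mul] at hp
    rw [hq]
    simpa [pow_two] using hp
  -- all `Rh g`
  have hall : ∀ g ∈ Prim m, q (f (Rh m g) : Matrix (Fin d) (Fin d) K) = 0 := by
    intro g hg
    obtain ⟨s, hs⟩ := prim_conj hij τ h1 h1' hg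
    have e2 : (f s : Matrix (Fin d) (Fin d) K) * (f s⁻¹ : Matrix (Fin d) (Fin d) K) = 1 := by
      rw [← Units.val_mul, ← map_mul, mul_inv_cancel, map_one, Units.val_one]
    have e3 : (f s⁻¹ : Matrix (Fin d) (Fin d) K) * (f s : Matrix (Fin d) (Fin d) K) = 1 := by
      rw [← Units.val_mul, ← map_mul, inv_mul_cancel, map_one, Units.val_one]
    have e1 : (f (Rh m g) : Matrix (Fin d) (Fin d) K) =
        (f s : Matrix (Fin d) (Fin d) K) * (f τ : Matrix (Fin d) (Fin d) K) *
          (f s⁻¹ : Matrix (Fin d) (Fin d) K) := by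
      rw [← Units.val_mul, ← Units.val_mul, ← map_mul, ← map_mul, hs]
    rw [e1]
    rw [hq] at hqτ ⊢
    simp only at hqτ ⊢
    generalize (f s : Matrix (Fin d) (Fin d) K) = P at *
    generalize (f s⁻¹ : Matrix (Fin d) (Fin d) K) = Q at *
    generalize (f τ : Matrix (Fin d) (Fin d) K) = M at *
    have e4 : P * M * Q * (P * M * Q) = P * (M * M) * Q := by
      calc P * M * Q * (P * M * Q) = P * M * (Q * P) * M * Q := by noncomm_ring
        _ = _ := by rw [e3]; noncomm_ring
    have e5 : α • (P * M * Q * (P * M * Q)) + β • (P * M * Q) + γ • (1 : Matrix (Fin d) (Fin d) K) =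
        P * (α • (M * M) + β • M + γ • 1) * Q := by
      rw [e4, mul_add, mul_add, add_mul, add_mul, mul_smul_comm, mul_smul_comm, mul_smul_comm,
        smul_mul_assoc, smul_mul_assoc, smul_mul_assoc, mul_one, e2]
    rw [e5, hqτ, mul_zero, zero_mul]
  obtain ⟨x0, hx0⟩ : ∃ x0 : FreeGroup (Fin m), x0 = FreeGroup.of ⟨0, by omega⟩ := ⟨_, rfl⟩
  obtain ⟨x1, hx1⟩ : ∃ x1 : FreeGroup (Fin m), x1 = FreeGroup.of ⟨1, by omega⟩ := ⟨_, rfl⟩
  have h01 : (⟨0, by omega⟩ : Fin m) ≠ ⟨1, by omega⟩ := by
    intro h; exact absurd (congrArg Fin.val h) (by norm_num)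
  have qA := hall x0 (by rw [hx0]; exact prim_of _)
  have qB := hall x1 (by rw [hx1]; exact prim_of _)
  have qAB := hall (x0 * x1) (by rw [hx0, hx1]; exact prim_mul h01)
  have qBA := hall (x1 * x0) (by rw [hx0, hx1]; exact prim_mul h01.symm)
  have qC := hall (x0 * x1⁻¹) (by
    rw [hx0, hx1]
    have := prim_zpow h01 (-1)
    rwa [zpow_neg_one] at this)
  let g : FreeGroup (Fin m) →* Matrix.GeneralLinearGroup (Fin d) K := f.comp (Rh m)
  have key : (g x0 : Matrix (Fin d) (Fin d) K) * ((g x0 : Matrix (Fin d) (Fin d) K) * g x1 *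
      (g x0)⁻¹.1 * (g x1)⁻¹.1) = (g x0 : Matrix (Fin d) (Fin d) K) * g x1 *
      (g x0)⁻¹.1 * (g x1)⁻¹.1 * g x0 := by
    change q (g x0 : Matrix (Fin d) (Fin d) K) = 0 at qA
    change q (g x1 : Matrix (Fin d) (Fin d) K) = 0 at qB
    change q (g (x0 * x1) : Matrix (Fin d) (Fin d) K) = 0 at qAB
    change q (g (x1 * x0) : Matrix (Fin d) (Fin d) K) = 0 at qBA
    change q (g (x0 * x1⁻¹) : Matrix (Fin d) (Fin d) K) = 0 at qC
    rw [map_mul, Units.val_mul] at qAB qBA qC
    rw [map_inv] at qC
    rw [hq] at qA qB qAB qBA qC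
    simp only at qA qB qAB qBA qC
    by_cases ha : α = 0
    · subst ha
      by_cases hb : β = 0
      · subst hb
        have hc : γ ≠ 0 := by
          intro hc
          apply hp0
          rw [hpp, hc]; simp
        have h0 : (1 : Matrix (Fin d) (Fin d) K) = 0 := by
          simp only [zero_smul, zero_add] at qA
          exact (smul_eq_zero.1 qA).resolve_left hc
        rw [← mul_one (_ * _), h0, mul_zero]
        rw [← mul_one (_ * _ * _), h0, mul_zero]
      · have hA : (g x0 : Matrix (Fin d) (Fin d) K) = (-(γ / β)) • 1 := by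
          simp only [zero_smul, zero_add] at qA
          have : β • (g x0 : Matrix (Fin d) (Fin d) K) = β • ((-(γ / β)) • 1) := by
            rw [smul_smul, mul_neg, mul_div_cancel₀ _ hb, neg_smul]
            exact eq_neg_of_add_eq_zero_left qA
          exact smul_right_injective _ hb this
        rw [hA]
        simp only [smul_mul_assoc, one_mul, mul_smul_comm, mul_one]
    · have norm : ∀ M : Matrix (Fin d) (Fin d) K, α • (M * M) + β • M + γ • 1 = 0 →
          M * M = (-(β / α)) • M - (γ / α) • 1 := by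
        intro M hM
        have : α • (M * M) = α • ((-(β / α)) • M - (γ / α) • 1) := by
          rw [smul_sub, smul_smul, smul_smul, mul_neg, mul_div_cancel₀ _ ha, mul_div_cancel₀ _ ha]
          linear_combination (norm := module) hM
        exact smul_right_injective _ ha this
      exact quad_alg (A := (g x0 : Matrix (Fin d) (Fin d) K)) (A' := (g x0)⁻¹.1)
        (B := (g x1 : Matrix (Fin d) (Fin d) K)) (B' := (g x1)⁻¹.1) (Units.mul_inv _)
        (Units.inv_mul _) (Units.mul_inv _) (Units.inv_mul _) _ _ (norm _ qA) (norm _ qB)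
        (norm _ qAB) (norm _ qBA) (norm _ qC)
  have key' : g x0 * (g x0 * g x1 * (g x0)⁻¹ * (g x1)⁻¹) =
      g x0 * g x1 * (g x0)⁻¹ * (g x1)⁻¹ * g x0 := Units.ext key
  refine ⟨Rh m (x0 * (x0 * x1 * x0⁻¹ * x1⁻¹) * x0⁻¹ * (x0 * x1 * x0⁻¹ * x1⁻¹)⁻¹), ?_,
    Rh_notInner hm ?_⟩
  · show g _ = 1
    simp only [map_mul, map_inv]
    rw [key']
    group
  · simp only [map_mul, map_inv, hx0, hx1, Th_of]
    have e0 : th m ⟨0, by omega⟩ = DihedralGroup.sr 0 := by simp [th]
    have e1 : th m ⟨1, by omega⟩ = DihedralGroup.sr 1 := by simp [th]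
    rw [e0, e1]
    decide

/-- powers of a transvection are not inner -/
theorem transv_pow_notInner {n : ℕ} (τ : MulAut (FreeGroup (Fin n))) {i j : Fin n} (hij : i ≠ j)
    (h1 : τ (FreeGroup.of i) = FreeGroup.of i * FreeGroup.of j)
    (h1' : ∀ l, l ≠ i → τ (FreeGroup.of l) = FreeGroup.of l) {N : ℕ} (hN : N ≠ 0)
    (u : FreeGroup (Fin n)) : τ ^ N ≠ MulAut.conj u := by
  intro hu
  have hp : ∀ N : ℕ, (τ ^ N) (FreeGroup.of i) = FreeGroup.of i * FreeGroup.of j ^ N := by
    intro N
    induction N with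
    | zero => simp
    | succ N ih =>
      rw [pow_succ', MulAut.mul_apply, ih, map_mul, map_pow, h1, h1' j hij.symm, pow_succ',
        mul_assoc]
  have h2 := hp N
  rw [hu, MulAut.conj_apply] at h2
  let ψ : FreeGroup (Fin n) →* Multiplicative ℤ :=
    FreeGroup.lift fun l => if l = j then Multiplicative.ofAdd 1 else 1
  have h3 := congrArg ψ h2
  have ei : ψ (FreeGroup.of i) = 1 := by simp [ψ, hij]
  have ej : ψ (FreeGroup.of j) = Multiplicative.ofAdd 1 := by simp [ψ]
  rw [map_mul, map_mul, map_mul, map_pow, map_inv, ei, ej, mul_one, mul_inv_cancel, one_mul] at h3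
  have h4 := congrArg Multiplicative.toAdd h3
  simp at h4
  exact hN (by exact_mod_cast h4.symm)

end

end Pool.Agent.TH95.PR
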