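import Mathlib
import Pool.Agent.TH95.PR.Quad

set_option autoImplicit false

namespace Pool.Agent.TH95.PR

universe u

variable {K : Type u} [Field K]

/-- the trichotomy -/
theorem quad_tri {R : Type*} [Ring R] [Nontrivial R] [Algebra K R] {A A' B B' : R}
    (a1 : A * A' = 1) (b1 : B * B' = 1) (b2 : B' * B = 1) (t e : K)
    (qA : A * A = t • A - e • 1) (qB : B * B = t • B - e • 1)
    (qAB : A * B * (A * B) = t • (A * B) - e • 1) (qBA : B * A * (B * A) = t • (B * A) - e • 1)
    (qC : A * B' * (A * B') = t • (A * B') - e • 1) :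
    A * B = B * A ∨ (e = 1 ∧ (t = 0 ∨ t = 2)) := by
  rcases eq_or_ne e 0 with rfl | he
  · have h : A = t • (1 : R) := by
      have h1 : A * A * A' = (t • A - (0:K) • 1) * A' := by rw [qA]
      rw [zero_smul, sub_zero, mul_assoc, a1, mul_one, smul_mul_assoc, a1] at h1
      exact h1
    left
    rw [h]
    simp only [smul_mul_assoc, one_mul, mul_smul_comm, mul_one]
  · have iA : e • A' = t • (1:R) - A := by
      have h1 : A * A * A' = (t • A - e • 1) * A' := by rw [qA]
      rw [mul_assoc, a1, mul_one, sub_mul, smul_mul_assoc, smul_mul_assoc, a1, one_mul] at h1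
      rw [h1]; abel
    have iB : e • B' = t • (1:R) - B := by
      have h1 : B * B * B' = (t • B - e • 1) * B' := by rw [qB]
      rw [mul_assoc, b1, mul_one, sub_mul, smul_mul_assoc, smul_mul_assoc, b1, one_mul] at h1
      rw [h1]; abel
    have iAB : e • (B' * A') = t • (1:R) - A * B := by
      have h0 : A * B * (B' * A') = 1 := by
        rw [mul_assoc, ← mul_assoc B, b1, one_mul, a1]
      have h1 : A * B * (A * B) * (B' * A') = (t • (A * B) - e • 1) * (B' * A') := by rw [qAB]
      rw [mul_assoc (A * B), h0, mul_one, sub_mul, smul_mul_assoc, smul_mul_assoc, h0, one_mul] at h1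
      rw [h1]; abel
    have iBA : e • (A' * B') = t • (1:R) - B * A := by
      have h0 : B * A * (A' * B') = 1 := by
        rw [mul_assoc, ← mul_assoc A, a1, one_mul, b1]
      have h1 : B * A * (B * A) * (A' * B') = (t • (B * A) - e • 1) * (A' * B') := by rw [qBA]
      rw [mul_assoc (B * A), h0, mul_one, sub_mul, smul_mul_assoc, smul_mul_assoc, h0, one_mul] at h1
      rw [h1]; abel
    have E1 : e • (t • (1:R) - A * B) = (t • (1:R) - B) * (t • (1:R) - A) := by
      rw [← iAB, ← iA, ← iB, smul_mul_assoc, mul_smul_comm]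
    have E2 : e • (t • (1:R) - B * A) = (t • (1:R) - A) * (t • (1:R) - B) := by
      rw [← iBA, ← iA, ← iB, smul_mul_assoc, mul_smul_comm]
    rcases eq_or_ne e 1 with rfl | he1
    · right
      rw [one_smul] at iA iB E1
      subst iA iB
      have E3 : B * (t • (1:R) - A) = t • (1:R) - A * (t • (1:R) - B) := by
        have h0 : A * (t • (1:R) - B) * (B * (t • (1:R) - A)) = 1 := by
          rw [mul_assoc, ← mul_assoc (t • (1:R) - B), b2, one_mul, a1]
        have h1 : A * (t • (1:R) - B) * (A * (t • (1:R) - B)) * (B * (t • (1:R) - A)) =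
            (t • (A * (t • (1:R) - B)) - (1:K) • 1) * (B * (t • (1:R) - A)) := by rw [qC]
        rw [mul_assoc (A * (t • (1:R) - B)), h0, mul_one, sub_mul, smul_mul_assoc, h0, one_smul,
          one_mul] at h1
        rw [h1]; abel
      have hs : (t * (t - 2)) • (1:R) = 0 := by
        have E1' := E1
        have E3' := E3
        simp only [mul_sub, sub_mul, smul_mul_assoc, mul_smul_comm, mul_one, one_mul] at E1' E3'
        linear_combination (norm := module) E3' - E1'
      refine ⟨rfl, ?_⟩
      rcases mul_eq_zero.1 ((smul_eq_zero.1 hs).resolve_right one_ne_zero) with h | h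
      · left; exact h
      · right; exact sub_eq_zero.1 h
    · left
      have h1 : (e - 1) • (B * A - A * B) = 0 := by
        simp only [mul_sub, sub_mul, smul_mul_assoc, mul_smul_comm, mul_one, one_mul] at E1 E2
        linear_combination (norm := module) E1 - E2
      have h2 := (smul_eq_zero.1 h1).resolve_left (sub_ne_zero.2 he1)
      exact (sub_eq_zero.1 h2).symm

/-- anticommutation when all squares are `-1` -/
theorem anti_of {R : Type*} [Ring R] {A B : R} (hA : A * A = -1) (hB : B * B = -1)
    (hAB : A * B * (A * B) = -1) : B * A = -(A * B) := by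
  have h1 : A * (A * B * (A * B)) * B = A * (-1) * B := by rw [hAB]
  have h2 : A * (A * B * (A * B)) * B = (A * A) * (B * A) * (B * B) := by noncomm_ring
  rw [h2, hA, hB] at h1
  have h3 : (-1 : R) * (B * A) * -1 = B * A := by noncomm_ring
  rw [h3] at h1
  rw [h1]; noncomm_ring

theorem triple {R : Type*} [Ring R] {A B C : R} (hA : A * A = -1) (hB : B * B = -1)
    (hC : C * C = -1) (hAB : B * A = -(A * B)) (hAC : C * A = -(A * C)) (hBC : C * B = -(B * C)) :
    A * B * C * (A * B * C) = 1 := by
  calc A * B * C * (A * B * C) = A * B * (C * A) * B * C := by noncomm_ring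
    _ = -(A * (B * A) * (C * B) * C) := by rw [hAC]; noncomm_ring
    _ = -((A * A) * (B * B) * (C * C)) := by rw [hAB, hBC]; noncomm_ring
    _ = 1 := by rw [hA, hB, hC]; noncomm_ring

section
variable {n : ℕ}

theorem prim_triple {i j k : Fin n} (hij : i ≠ j) (hik : i ≠ k) :
    FreeGroup.of i * FreeGroup.of j * FreeGroup.of k ∈ Prim n := by
  refine ⟨(tAut hik).trans (tAut hij), i, ?_⟩
  show _ = tHom i j 1 (tHom i k 1 (FreeGroup.of i))
  have hki : k ≠ i := hik.symm
  simp [tHom, hki]

/-- commuting generators -/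
theorem nil_of_comm {G : Type*} [Group G] (ρ : FreeGroup (Fin n) →* G)
    (h : ∀ i j, ρ (FreeGroup.of i) * ρ (FreeGroup.of j) = ρ (FreeGroup.of j) * ρ (FreeGroup.of i)) :
    Group.IsNilpotent ρ.range := by
  have h1 : ∀ i g, Commute (ρ (FreeGroup.of i)) (ρ g) := by
    intro i g
    induction g using FreeGroup.induction_on with
    | C1 => rw [map_one]; exact Commute.one_right _
    | of j => exact h i j
    | inv_of j hj => rw [map_inv]; exact hj.inv_right
    | mul a b ha hb => rw [map_mul]; exact ha.mul_right hb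
  have h2 : ∀ g g', Commute (ρ g) (ρ g') := by
    intro g g'
    induction g using FreeGroup.induction_on with
    | C1 => rw [map_one]; exact Commute.one_left _
    | of j => exact h1 j g'
    | inv_of j hj => rw [map_inv]; exact hj.inv_left
    | mul a b ha hb => rw [map_mul]; exact ha.mul_left hb
  rw [Subgroup.nilpotent_iff_lowerCentralSeries]
  refine ⟨1, ?_⟩
  rw [eq_bot_iff, Subgroup.lowerCentralSeries_succ, Subgroup.commutator_le]
  rintro ⟨_, g, rfl⟩ _ ⟨_, g', rfl⟩ _
  rw [Subgroup.mem_bot]
  apply Subtype.ext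
  show ρ g * ρ g' * (ρ g)⁻¹ * (ρ g')⁻¹ = 1
  rw [(h2 g g').eq]
  group

variable {d : ℕ}

/-- quadratic case for free groups -/
theorem quad_nilp (hn : 3 ≤ n) (h2 : (2:K) ≠ 0) (h3 : (3:K) ≠ 0)
    (ρ : FreeGroup (Fin n) →* Matrix.GeneralLinearGroup (Fin d) K) (α β γ : K)
    (hne : ¬ (α = 0 ∧ β = 0 ∧ γ = 0))
    (hq : ∀ g ∈ Prim n, α • ((ρ g : Matrix (Fin d) (Fin d) K) * ρ g) +
      β • (ρ g : Matrix (Fin d) (Fin d) K) + γ • 1 = 0) :
    Group.IsNilpotent ρ.range := by
  rcases Nat.eq_zero_or_pos d with rfl | hd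
  · apply nil_of_comm
    intro i j
    exact Units.ext (Subsingleton.elim _ _)
  have : Nonempty (Fin d) := ⟨⟨0, hd⟩⟩
  by_cases ha : α = 0
  · subst ha
    by_cases hb : β = 0
    · subst hb
      have hc : γ ≠ 0 := fun h => hne ⟨rfl, rfl, h⟩
      exfalso
      have h4 := hq _ (prim_of ⟨0, by omega⟩)
      simp only [zero_smul, zero_add] at h4
      exact one_ne_zero ((smul_eq_zero.1 h4).resolve_left hc)
    · apply nil_of_comm
      intro i j
      apply Units.ext
      have h4 := hq _ (prim_of i)
      simp only [zero_smul, zero_add] at h4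
      have hA : (ρ (FreeGroup.of i) : Matrix (Fin d) (Fin d) K) = (-(γ / β)) • 1 := by
        have : β • (ρ (FreeGroup.of i) : Matrix (Fin d) (Fin d) K) = β • ((-(γ / β)) • 1) := by
          rw [smul_smul, mul_neg, mul_div_cancel₀ _ hb, neg_smul]
          exact eq_neg_of_add_eq_zero_left h4
        exact smul_right_injective _ hb this
      rw [Units.val_mul, Units.val_mul, hA]
      simp only [smul_mul_assoc, one_mul, mul_smul_comm, mul_one]
  obtain ⟨t, ht⟩ : ∃ t, t = -(β / α) := ⟨_, rfl⟩
  obtain ⟨e, he⟩ : ∃ e, e = γ / α := ⟨_, rfl⟩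
  have norm : ∀ g ∈ Prim n, (ρ g : Matrix (Fin d) (Fin d) K) * ρ g =
      t • (ρ g : Matrix (Fin d) (Fin d) K) - e • 1 := by
    intro g hg
    have hM := hq g hg
    have : α • ((ρ g : Matrix (Fin d) (Fin d) K) * ρ g) =
        α • (t • (ρ g : Matrix (Fin d) (Fin d) K) - e • 1) := by
      rw [ht, he, smul_sub, smul_smul, smul_smul, mul_neg, mul_div_cancel₀ _ ha,
        mul_div_cancel₀ _ ha]
      linear_combination (norm := module) hM
    exact smul_right_injective _ ha this
  by_cases hcomm : ∀ i j, ρ (FreeGroup.of i) * ρ (FreeGroup.of j) =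
      ρ (FreeGroup.of j) * ρ (FreeGroup.of i)
  · exact nil_of_comm ρ hcomm
  push Not at hcomm
  obtain ⟨i, j, hij'⟩ := hcomm
  have hij : i ≠ j := fun h => hij' (by rw [h])
  have qAB := norm _ (prim_mul hij)
  have qBA := norm _ (prim_mul hij.symm)
  have qC := norm _ (prim_zpow hij (-1))
  rw [zpow_neg_one] at qC
  simp only [map_mul, map_inv, Units.val_mul] at qAB qBA qC
  have tri := quad_tri (A := (ρ (FreeGroup.of i) : Matrix (Fin d) (Fin d) K))
    (A' := (ρ (FreeGroup.of i))⁻¹.1) (B := (ρ (FreeGroup.of j) : Matrix (Fin d) (Fin d) K))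
    (B' := (ρ (FreeGroup.of j))⁻¹.1) (Units.mul_inv _) (Units.mul_inv _) (Units.inv_mul _) t e
    (norm _ (prim_of i)) (norm _ (prim_of j)) qAB qBA qC
  rcases tri with h | ⟨he1, h | h⟩
  · exact absurd (Units.ext h) hij'
  · -- `t = 0`
    exfalso
    rw [he1, h] at norm
    simp only [zero_smul, one_smul, zero_sub] at norm
    obtain ⟨k, hki, hkj⟩ : ∃ k : Fin n, k ≠ i ∧ k ≠ j := by
      have : ∃ k : Fin n, k ∉ ({i, j} : Finset (Fin n)) := by
        by_contra hcon
        push Not at hcon
        have h5 : (Finset.univ : Finset (Fin n)) ⊆ {i, j} := fun k _ => hcon k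
        have h6 := Finset.card_le_card h5
        have h7 := Finset.card_le_two (a := i) (b := j)
        rw [Finset.card_univ, Fintype.card_fin] at h6
        omega
      obtain ⟨k, hk⟩ := this
      simp only [Finset.mem_insert, Finset.mem_singleton, not_or] at hk
      exact ⟨k, hk⟩
    have sq : ∀ l, (ρ (FreeGroup.of l) : Matrix (Fin d) (Fin d) K) * ρ (FreeGroup.of l) = -1 :=
      fun l => norm _ (prim_of l)
    have ac : ∀ l l', l ≠ l' → (ρ (FreeGroup.of l') : Matrix (Fin d) (Fin d) K) *
        ρ (FreeGroup.of l) = -(ρ (FreeGroup.of l) * ρ (FreeGroup.of l')) := by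
      intro l l' hl
      have h8 := norm _ (prim_mul hl)
      simp only [map_mul, Units.val_mul] at h8
      exact anti_of (sq l) (sq l') h8
    have h9 := norm _ (prim_triple (n := n) hij hki.symm)
    simp only [map_mul, Units.val_mul] at h9
    rw [triple (sq i) (sq j) (sq k) (ac i j hij) (ac i k hki.symm) (ac j k hkj.symm)] at h9
    have h10 : (2:K) • (1 : Matrix (Fin d) (Fin d) K) = 0 := by
      rw [two_smul]
      nth_rewrite 1 [h9]
      rw [neg_add_cancel]
    exact one_ne_zero ((smul_eq_zero.1 h10).resolve_left h2)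
  · -- `t = 2`
    apply mat_nilp h2 h3 ρ
    intro g hg
    have h5 := norm g hg
    rw [he1, h, one_smul] at h5
    have h6 : ((ρ g : Matrix (Fin d) (Fin d) K) - 1) * ((ρ g : Matrix (Fin d) (Fin d) K) - 1) = 0 := by
      rw [sub_mul, mul_sub, h5, mul_one, one_mul]
      module
    rw [pow_succ, pow_two, h6, zero_mul]

end

end Pool.Agent.TH95.PR
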